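import Pool.Agent.Singer.Fam

/-!
# Chains: boundary, adjointness, from homology to cohomology
-/

set_option autoImplicit false
set_option linter.unusedSectionVars false
set_option linter.unusedVariables false

namespace Helper6CD

open Singer

universe u

section bd
variable {V : Type u} [Fintype V] [DecidableEq V] {A : Type*} [CommRing A] {r : V → ℕ}

/-- the boundary -/
def bd (r : V → ℕ) (c : Finset V → A) (S : Finset V) : A := ∑ v ∈ Sᶜ, sgz r v S • c (insert v S)

/-- the boundary and the coboundary are adjoint -/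
theorem bd_dl (c f : Finset V → A) : ∑ S, bd r c S * f S = ∑ T, c T * dl r f T := by
  classical
  have h1 : ∑ S, bd r c S * f S = ∑ x ∈ (Finset.univ : Finset (Finset V)).sigma fun S => Sᶜ,
      (sgz r x.2 x.1 • c (insert x.2 x.1)) * f x.1 := by
    rw [Finset.sum_sigma]
    refine Finset.sum_congr rfl fun S _ => ?_
    rw [bd, Finset.sum_mul]
  have h2 : ∑ T, c T * dl r f T = ∑ x ∈ (Finset.univ : Finset (Finset V)).sigma fun T => T,
      c x.1 * (sgz r x.2 (x.1.erase x.2) • f (x.1.erase x.2)) := by
    rw [Finset.sum_sigma]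
    refine Finset.sum_congr rfl fun S _ => ?_
    rw [dl, Finset.mul_sum]
  rw [h1, h2]
  refine Finset.sum_bij' (fun x _ => (⟨insert x.2 x.1, x.2⟩ : Σ _ : Finset V, V))
    (fun x _ => (⟨x.1.erase x.2, x.2⟩ : Σ _ : Finset V, V)) ?_ ?_ ?_ ?_ ?_
  · rintro ⟨S, v⟩ h
    simp
  · rintro ⟨T, v⟩ h
    simp
  · rintro ⟨S, v⟩ h
    have hv : v ∉ S := by simpa using h
    simp only [Finset.erase_insert hv]
  · rintro ⟨T, v⟩ h
    have hv : v ∈ T := by simpa using h
    simp only [Finset.insert_erase hv]
  · rintro ⟨S, v⟩ h
    have hv : v ∉ S := by simpa using h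
    simp only [Finset.erase_insert hv]
    rw [smul_mul_assoc, mul_smul_comm]

theorem bd_eq_pair (c : Finset V → A) (S : Finset V) :
    bd r c S = ∑ T, c T * dl r (fun R => if R = S then (1 : A) else 0) T := by
  rw [← bd_dl]
  simp

theorem bd_bd (hr : Function.Injective r) (c : Finset V → A) (S : Finset V) : bd r (bd r c) S = 0 := by
  rw [bd_eq_pair, bd_dl]
  refine Finset.sum_eq_zero fun T _ => ?_
  have : dl r (dl r fun R => if R = S then (1 : A) else 0) T = 0 := dl_dl hr _ T
  rw [this, mul_zero]

theorem bd_add (c e : Finset V → A) (S : Finset V) : bd r (fun T => c T + e T) S = bd r c S + bd r e S := by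
  simp [bd, smul_add, Finset.sum_add_distrib]

theorem bd_sub (c e : Finset V → A) (S : Finset V) : bd r (fun T => c T - e T) S = bd r c S - bd r e S := by
  simp [bd, smul_sub, Finset.sum_sub_distrib]

theorem bd_smul (a : A) (c : Finset V → A) (S : Finset V) : bd r (fun T => a * c T) S = a * bd r c S := by
  simp only [bd, Finset.mul_sum]
  refine Finset.sum_congr rfl fun v _ => ?_
  rw [mul_smul_comm]

theorem bd_congr {c e : Finset V → A} {S : Finset V} (h : ∀ v, v ∉ S → c (insert v S) = e (insert v S)) :
    bd r c S = bd r e S := by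
  refine Finset.sum_congr rfl fun v hv => ?_
  rw [h v (by simpa using hv)]

theorem bd_eq_zero {c : Finset V → A} {S : Finset V} (h : ∀ v, v ∉ S → c (insert v S) = 0) : bd r c S = 0 := by
  refine Finset.sum_eq_zero fun v hv => ?_
  rw [h v (by simpa using hv), smul_zero]

theorem bd_sum {ι : Type*} (s : Finset ι) (c : ι → Finset V → A) (S : Finset V) :
    bd r (fun T => ∑ i ∈ s, c i T) S = ∑ i ∈ s, bd r (c i) S := by
  simp only [bd, Finset.smul_sum]
  rw [Finset.sum_comm]

/-- homological version of `Acy` -/
def HAcy (A : Type*) [CommRing A] (r : V → ℕ) (D : Set (Finset V)) : Prop :=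
  ∀ c : Finset V → A, (∀ S, S ∉ D → c S = 0) → (∀ S ∈ D, bd r c S = 0) →
    ∃ e : Finset V → A, (∀ S, S ∉ D → e S = 0) ∧ ∀ S ∈ D, bd r e S = c S

end bd

section conv
variable {V : Type u} [Fintype V] [DecidableEq V] {A : Type*} [CommRing A] [IsDomain A] [IsPrincipalIdealRing A]
  {r : V → ℕ}

/-- the chains of the family `D` -/
def Chn (A : Type*) [CommRing A] (D : Set (Finset V)) : Submodule A (Finset V → A) where
  carrier := {c | ∀ S, S ∉ D → c S = 0}
  zero_mem' _ _ := rfl
  add_mem' ha hb S hS := by rw [Pi.add_apply, ha S hS, hb S hS, add_zero]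
  smul_mem' a c hc S hS := by rw [Pi.smul_apply, hc S hS, smul_zero]

/-- the relative boundary -/
noncomputable def rbd (r : V → ℕ) (D : Set (Finset V)) : (Finset V → A) →ₗ[A] (Finset V → A) where
  toFun c := rst D (bd r c)
  map_add' c e := by
    funext S
    by_cases h : S ∈ D
    · rw [rst_mem h, Pi.add_apply, rst_mem h, rst_mem h]
      exact bd_add c e S
    · rw [rst_not h, Pi.add_apply, rst_not h, rst_not h, add_zero]
  map_smul' a c := by
    funext S
    by_cases h : S ∈ D
    · rw [rst_mem h, RingHom.id_apply, Pi.smul_apply, rst_mem h]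
      exact bd_smul a c S
    · rw [rst_not h, Pi.smul_apply, rst_not h, smul_zero]

theorem rbd_mem (D : Set (Finset V)) (c : Finset V → A) : rbd r D c ∈ Chn A D := fun S hS => rst_not hS

theorem bd_rst (hr : Function.Injective r) {D : Set (Finset V)} (hD : Cvx D) {c : Finset V → A}
    (hc : c ∈ Chn A D) {S : Finset V} (hS : S ∈ D) : bd r (rst D (bd r c)) S = 0 := by
  rw [← bd_bd hr c S]
  refine bd_congr fun v hv => ?_
  by_cases h : insert v S ∈ D
  · exact rst_mem h
  · rw [rst_not h]
    symm
    refine bd_eq_zero fun w hw => hc _ fun h1 => h ?_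
    exact hD S hS _ h1 _ (Finset.subset_insert _ _) (Finset.subset_insert _ _)

/-- **from homology to cohomology** -/
theorem acy_of_hAcy (hr : Function.Injective r) {D : Set (Finset V)} (hD : Cvx D) (h : HAcy A r D) : Acy A r D := by
  classical
  -- the boundary as an endomorphism of the chains
  let d : Chn A D →ₗ[A] Chn A D := ((rbd r D).comp (Chn A D).subtype).codRestrict (Chn A D) fun c => rbd_mem (r := r) D (c : Finset V → A)
  have hd : ∀ c : Chn A D, ((d c : Chn A D) : Finset V → A) = rst D (bd r (c : Finset V → A)) := fun c => rfl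
  have hdd : ∀ c, d (d c) = 0 := by
    intro c
    apply Subtype.ext
    funext S
    rw [hd, hd]
    by_cases hS : S ∈ D
    · rw [rst_mem hS]
      exact bd_rst hr hD c.2 hS
    · rw [rst_not hS]
      rfl
  have hex : ∀ c, d c = 0 → ∃ e, d e = c := by
    intro c hc
    obtain ⟨e, he, hde⟩ := h c c.2 fun S hS => by
      have h1 := congrFun (congrArg Subtype.val hc) S
      rw [hd, rst_mem hS] at h1
      exact h1
    refine ⟨⟨e, he⟩, Subtype.ext ?_⟩
    funext S
    rw [hd]
    by_cases hS : S ∈ D
    · rw [rst_mem hS]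
      exact hde S hS
    · rw [rst_not hS]
      exact (c.2 S hS).symm
  have hfree : Module.Free A (Chn A D) := inferInstance
  have hfree2 : Module.Free A (LinearMap.range d) := by
    obtain ⟨n, ⟨b⟩⟩ := Submodule.nonempty_basis_of_pid (Pi.basisFun A (Finset V)) (Chn A D)
    obtain ⟨m, ⟨b'⟩⟩ := Submodule.nonempty_basis_of_pid b (LinearMap.range d)
    exact Module.Free.of_basis b'
  obtain ⟨σ, hσ⟩ := Module.projective_lifting_property d.rangeRestrict (LinearMap.id : LinearMap.range d →ₗ[A] _)
    d.surjective_rangeRestrict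
  have hσ' : ∀ y : LinearMap.range d, d (σ y) = y := by
    intro y
    have h1 := LinearMap.congr_fun hσ y
    exact congrArg Subtype.val h1
  let φ : Chn A D →ₗ[A] LinearMap.range d :=
    (LinearMap.id - σ.comp d.rangeRestrict).codRestrict (LinearMap.range d) fun c => by
      obtain ⟨e, he⟩ := hex (c - σ (d.rangeRestrict c)) (by
        rw [map_sub, hσ', sub_eq_zero]
        rfl)
      exact ⟨e, he⟩
  have hφ : ∀ c, ((φ c : LinearMap.range d) : Chn A D) = c - σ (d.rangeRestrict c) := fun c => rfl
  let s : Chn A D →ₗ[A] Chn A D := σ.comp φ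
  have hs : ∀ c, d (s c) + s (d c) = c := by
    intro c
    have h1 : d (s c) = c - σ (d.rangeRestrict c) := by
      show d (σ (φ c)) = _
      rw [hσ', hφ]
    have h2 : s (d c) = σ (d.rangeRestrict c) := by
      show σ (φ (d c)) = _
      congr 1
      apply Subtype.ext
      rw [hφ]
      have h3 : d.rangeRestrict (d c) = 0 := Subtype.ext (hdd c)
      rw [h3, map_zero, sub_zero]
      rfl
    rw [h1, h2]
    exact sub_add_cancel _ _
  -- the pairing
  intro c hc hdc
  let P : (Finset V → A) →ₗ[A] A :=
    { toFun := fun x => ∑ S, x S * c S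
      map_add' := fun x y => by simp [add_mul, Finset.sum_add_distrib]
      map_smul' := fun a x => by simp [Finset.mul_sum, mul_assoc] }
  have hP : ∀ x, P x = ∑ S, x S * c S := fun x => rfl
  let one : Finset V → (Finset V → A) := fun S => if S ∈ D then Pi.single S 1 else 0
  have hone : ∀ S, one S ∈ Chn A D := by
    intro S T hT
    show (if S ∈ D then Pi.single S 1 else 0 : Finset V → A) T = 0
    by_cases hS : S ∈ D
    · rw [if_pos hS]
      refine Pi.single_eq_of_ne ?_ _
      rintro rfl
      exact hT hS
    · rw [if_neg hS]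
      rfl
  let e : Finset V → A := fun S => P (s ⟨one S, hone S⟩ : Chn A D)
  have he : ∀ x : Chn A D, P (s x : Chn A D) = ∑ S, (x : Finset V → A) S * e S := by
    intro x
    have h1 : x = ∑ S, (x : Finset V → A) S • (⟨one S, hone S⟩ : Chn A D) := by
      apply Subtype.ext
      funext T
      rw [AddSubmonoidClass.coe_finsetSum, Finset.sum_apply]
      simp only [Submodule.coe_smul, Pi.smul_apply, smul_eq_mul]
      show _ = ∑ S, (x : Finset V → A) S * (if S ∈ D then Pi.single S 1 else 0 : Finset V → A) T
      by_cases hT : T ∈ D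
      · rw [Finset.sum_eq_single T, if_pos hT, Pi.single_eq_same, mul_one]
        · intro S _ hST
          by_cases hS : S ∈ D
          · rw [if_pos hS, Pi.single_eq_of_ne (Ne.symm hST), mul_zero]
          · rw [if_neg hS, Pi.zero_apply, mul_zero]
        · intro h1
          exact absurd (Finset.mem_univ T) h1
      · rw [x.2 T hT, Finset.sum_eq_zero]
        intro S _
        by_cases hS : S ∈ D
        · have : T ≠ S := fun h1 => hT (h1 ▸ hS)
          rw [if_pos hS, Pi.single_eq_of_ne this, mul_zero]
        · rw [if_neg hS, Pi.zero_apply, mul_zero]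
    conv_lhs => rw [h1]
    rw [map_sum, AddSubmonoidClass.coe_finsetSum, map_sum]
    refine Finset.sum_congr rfl fun S _ => ?_
    rw [map_smul, Submodule.coe_smul, map_smul, smul_eq_mul]
  refine ⟨e, fun S hS => ?_, fun T hT => ?_⟩
  · have h1 : (⟨one S, hone S⟩ : Chn A D) = 0 := Subtype.ext (if_neg hS)
    show P (s ⟨one S, hone S⟩ : Chn A D) = 0
    rw [h1, map_zero]
    exact map_zero P
  · -- test with the chain `T`
    let x : Chn A D := ⟨one T, hone T⟩
    have hx : ∀ S, (x : Finset V → A) S = if S = T then 1 else 0 := by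
      intro S
      show (if T ∈ D then Pi.single T 1 else 0 : Finset V → A) S = _
      rw [if_pos hT, Pi.single_apply]
    have hxf : ∀ f : Finset V → A, ∑ S, (x : Finset V → A) S * f S = f T := by
      intro f
      simp only [hx]
      simp
    have h1 : dl r e T = P (s (d x) : Chn A D) := by
      rw [he, ← hxf (dl r e), ← bd_dl]
      refine Finset.sum_congr rfl fun S _ => ?_
      rw [hd]
      by_cases hS : S ∈ D
      · rw [rst_mem hS]
      · rw [rst_not hS, zero_mul]
        have : e S = 0 := by
          have h1 : (⟨one S, hone S⟩ : Chn A D) = 0 := Subtype.ext (if_neg hS)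
          show P (s ⟨one S, hone S⟩ : Chn A D) = 0
          rw [h1, map_zero]
          exact map_zero P
        rw [this, mul_zero]
    have h2 : ∀ y : Chn A D, P (d y : Chn A D) = 0 := by
      intro y
      rw [hP, hd]
      have h3 : ∑ S, rst D (bd r (y : Finset V → A)) S * c S = ∑ S, bd r (y : Finset V → A) S * c S := by
        refine Finset.sum_congr rfl fun S _ => ?_
        by_cases hS : S ∈ D
        · rw [rst_mem hS]
        · rw [rst_not hS, hc S hS, mul_zero, mul_zero]
      rw [h3, bd_dl]
      refine Finset.sum_eq_zero fun S _ => ?_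
      by_cases hS : S ∈ D
      · rw [hdc S hS, mul_zero]
      · rw [y.2 S hS, zero_mul]
    have h3 : (s (d x) : Chn A D) = x - d (s x) := by
      rw [eq_sub_iff_add_eq, add_comm]
      exact hs x
    rw [h1, h3, Submodule.coe_sub, map_sub, h2, sub_zero, hP]
    exact hxf c

end conv

end Helper6CD
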