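import Pool.Agent.Singer.TFinal

/-!
# Counting the cells of the quotient of the Davis complex

`card_O`: the number of orbits of cells of type `S` times `2 ^ |S|` is the index of the subgroup.
`exists_finRes_card`: the finite free resolution given by the Davis complex, with its ranks.
-/

set_option autoImplicit false
set_option linter.unusedSectionVars false
set_option linter.unusedVariables false

open scoped Matrix

namespace Helper6CD

open Singer

universe u

section count
variable {V : Type u} {G : SimpleGraph V}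

theorem mz_two (x : Multiplicative (ZMod 2)) : x = 1 ∨ x = Multiplicative.ofAdd 1 := by
  revert x
  decide

theorem exists_sub (S : Finset V) (f : V → Multiplicative (ZMod 2)) :
    ∃ u ∈ Racg.sub (G := G) (S : Set V), ∀ v ∈ S, ab2 G u v = f v := by
  classical
  induction S using Finset.induction_on with
  | empty => exact ⟨1, Subgroup.one_mem _, fun v hv => absurd hv (Finset.notMem_empty v)⟩
  | insert a S ha ih =>
    obtain ⟨u, hu, h⟩ := ih
    have hua : ab2 G u a = 1 := ab2_sub (A := (S : Set V)) (by simpa using ha) hu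
    have hmono : Racg.sub (G := G) (S : Set V) ≤ Racg.sub (G := G) ((insert a S : Finset V) : Set V) :=
      Racg.sub_mono (by simp)
    rcases mz_two (f a) with h1 | h1
    · refine ⟨u, hmono hu, fun v hv => ?_⟩
      rcases Finset.mem_insert.1 hv with rfl | hv
      · rw [hua, h1]
      · exact h v hv
    · refine ⟨Racg.gen G a * u, Subgroup.mul_mem _ (Racg.gen_mem_sub (by simp)) (hmono hu), fun v hv => ?_⟩
      rw [map_mul, Pi.mul_apply]
      rcases Finset.mem_insert.1 hv with rfl | hv
      · rw [hua, h1, mul_one, ab2_gen_self]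
      · have hva : v ≠ a := fun h2 => ha (h2 ▸ hv)
        rw [h v hv]
        have h2 : ab2 G (Racg.gen G a) v = 1 := by
          rw [ab2, Racg.lift_gen]
          exact if_neg hva
        rw [h2, one_mul]

theorem card_sub {S : Finset V} (hS : G.IsClique S) : Nat.card (Racg.sub (G := G) (S : Set V)) = 2 ^ S.card := by
  classical
  have hb : Function.Bijective (fun (u : Racg.sub (G := G) (S : Set V)) (v : S) => ab2 G u v) := by
    constructor
    · intro u u' h
      have h1 : (u : RACG G)⁻¹ * u' = 1 := by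
        refine eq_one_of_ab2 hS (Subgroup.mul_mem _ (Subgroup.inv_mem _ u.2) u'.2) ?_
        funext v
        rw [map_mul, map_inv, Pi.mul_apply, Pi.inv_apply, Pi.one_apply]
        by_cases hv : v ∈ S
        · have h2 := congrFun h ⟨v, hv⟩
          dsimp only at h2
          rw [h2, inv_mul_cancel]
        · rw [ab2_sub (A := (S : Set V)) (by simpa using hv) u.2,
            ab2_sub (A := (S : Set V)) (by simpa using hv) u'.2]
          simp
      exact Subtype.ext (inv_mul_eq_one.1 h1)
    · intro f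
      obtain ⟨u, hu, h⟩ := exists_sub (G := G) S (fun v => if hv : v ∈ S then f ⟨v, hv⟩ else 1)
      refine ⟨⟨u, hu⟩, ?_⟩
      funext v
      show ab2 G u v = f v
      rw [h v v.2, dif_pos v.2]
  rw [Nat.card_congr (Equiv.ofBijective _ hb), Nat.card_pi]
  have h2 : Nat.card (Multiplicative (ZMod 2)) = 2 := by
    rw [Nat.card_eq_fintype_card]
    rfl
  simp only [h2, Finset.prod_const, Finset.card_univ, Fintype.card_coe]

theorem card_O {H : Subgroup (RACG G)} (F : Frame H) {S : Finset V} (hS : G.IsClique S) :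
    Fintype.card (F.O S) * 2 ^ S.card = H.index := by
  classical
  let φ : F.O S × Racg.sub (G := G) (S : Set V) → RACG G ⧸ H := fun x =>
    (((F.t S x.1 * (x.2 : RACG G))⁻¹ : RACG G) : RACG G ⧸ H)
  have hb : Function.Bijective φ := by
    constructor
    · rintro ⟨o, u⟩ ⟨o', u'⟩ h
      have h1 : ((F.t S o * (u : RACG G))⁻¹)⁻¹ * (F.t S o' * (u' : RACG G))⁻¹ ∈ H :=
        QuotientGroup.eq.1 h
      rw [inv_inv] at h1
      have h2 : F.e S hS (⟨_, h1⟩, o', u') = F.e S hS (1, o, u) := by
        rw [F.e_apply, F.e_apply]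
        show F.t S o * u * (F.t S o' * u')⁻¹ * F.t S o' * u' = (1 : RACG G) * F.t S o * u
        group
      have h3 := (F.e S hS).injective h2
      have h4 : o' = o := congrArg (fun z => z.2.1) h3
      have h5 : u' = u := congrArg (fun z => z.2.2) h3
      rw [h4, h5]
    · intro q
      induction q using QuotientGroup.induction_on with
      | H g =>
        obtain ⟨⟨h, o, u⟩, h1⟩ := (F.e S hS).surjective g⁻¹
        rw [F.e_apply] at h1
        refine ⟨(o, u), ?_⟩
        show (((F.t S o * (u : RACG G))⁻¹ : RACG G) : RACG G ⧸ H) = (g : RACG G ⧸ H)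
        rw [QuotientGroup.eq, inv_inv]
        have h2 : F.t S o * (u : RACG G) * g = (h : RACG G)⁻¹ := by
          have h3 : g = ((h : RACG G) * F.t S o * u)⁻¹ := by rw [h1, inv_inv]
          rw [h3]
          group
        rw [h2]
        exact H.inv_mem h.2
  have h1 := Nat.card_congr (Equiv.ofBijective φ hb)
  rw [Nat.card_prod, card_sub hS, Nat.card_eq_fintype_card] at h1
  exact h1

end count

/-- from linear maps between based free modules to matrices -/
theorem finRes_of_lin_card {Γ : Type u} [Group Γ] (κ : ℕ → Type u) [∀ i, Fintype (κ i)]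
    (d : ∀ i, (κ (i + 1) → ZG Γ) →ₗ[ZG Γ] (κ i → ZG Γ)) (a : (κ 0 → ZG Γ) →+ ℤ)
    (ha : ∀ (g : Γ) (x : κ 0 → ZG Γ), a (MonoidAlgebra.single g (1 : ℤ) • x) = a x) (hs : Function.Surjective a)
    (h0 : ∀ x, a x = 0 ↔ ∃ y, d 0 y = x) (h1 : ∀ i x, d i x = 0 ↔ ∃ y, d (i + 1) y = x) :
    ∃ R : FinRes Γ, ∀ i, Fintype.card (R.ι i) = Fintype.card (κ i) := by
  classical
  let e : ∀ i, κ i ≃ Fin (Fintype.card (κ i)) := fun i => Fintype.equivFin (κ i)
  -- reindexing
  let E : ∀ i, (Fin (Fintype.card (κ i)) → ZG Γ) ≃ₗ[ZG Γ] (κ i → ZG Γ) := fun i =>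
    LinearEquiv.funCongrLeft (ZG Γ) (ZG Γ) (e i)
  let d' : ∀ i, (Fin (Fintype.card (κ (i + 1))) → ZG Γ) →ₗ[ZG Γ] (Fin (Fintype.card (κ i)) → ZG Γ) := fun i =>
    ((E i).symm.toLinearMap.comp (d i)).comp (E (i + 1)).toLinearMap
  have hd' : ∀ i x, E i (d' i x) = d i (E (i + 1) x) := fun i x => (E i).apply_symm_apply _
  let a' : (Fin (Fintype.card (κ 0)) → ZG Γ) →+ ℤ := a.comp (E 0).toLinearMap.toAddMonoidHom
  have ha' : ∀ x, a' x = a (E 0 x) := fun x => rfl
  have ha1 : ∀ (g : Γ) (x), a' (MonoidAlgebra.single g (1 : ℤ) • x) = a' x := fun g x => by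
    rw [ha', ha', map_smul, ha]
  have ex0 : ∀ x, a' x = 0 ↔ ∃ y, d' 0 y = x := by
    intro x
    rw [ha', h0]
    constructor
    · rintro ⟨y, hy⟩
      refine ⟨(E 1).symm y, (E 0).injective ?_⟩
      rw [hd' 0, ← hy]
      exact congrArg (d 0) ((E 1).apply_symm_apply y)
    · rintro ⟨y, rfl⟩
      exact ⟨E 1 y, (hd' 0 y).symm⟩
  have ex1 : ∀ i x, d' i x = 0 ↔ ∃ y, d' (i + 1) y = x := by
    intro i x
    have h2 : d' i x = 0 ↔ d i (E (i + 1) x) = 0 := by
      rw [← hd']
      exact ((E i).map_eq_zero_iff).symm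
    rw [h2, h1]
    constructor
    · rintro ⟨y, hy⟩
      refine ⟨(E (i + 2)).symm y, (E (i + 1)).injective ?_⟩
      rw [hd' (i + 1), ← hy]
      exact congrArg (d (i + 1)) ((E (i + 2)).apply_symm_apply y)
    · rintro ⟨y, rfl⟩
      exact ⟨E (i + 2) y, (hd' (i + 1) y).symm⟩
  refine ⟨{ ι := fun i => Fin (Fintype.card (κ i))
            ft := fun i => inferInstance
            d := fun i => Matrix.of fun k l => d' i (Pi.single k 1) l
            w := fun k => a' (Pi.single k 1)
            surj := ?_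
            exact_zero := ?_
            exact_succ := ?_ }, ?_⟩
  · obtain ⟨x, hx⟩ := hs 1
    refine ⟨(E 0).symm x, ?_⟩
    rw [aug_eq_augw a' ha1, ha', LinearEquiv.apply_symm_apply, hx]
  · intro x
    rw [aug_eq_augw a' ha1, ex0]
    constructor
    · rintro ⟨y, hy⟩
      exact ⟨y, by rw [← hy]; exact lin_eq_vecMul (d' 0) y⟩
    · rintro ⟨y, hy⟩
      exact ⟨y, by rw [← hy]; exact (lin_eq_vecMul (d' 0) y).symm⟩
  · intro i x
    rw [lin_eq_vecMul (d' i) x, ex1]
    constructor
    · rintro ⟨y, hy⟩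
      exact ⟨y, by rw [← hy]; exact lin_eq_vecMul (d' (i + 1)) y⟩
    · rintro ⟨y, hy⟩
      exact ⟨y, by rw [← hy]; exact (lin_eq_vecMul (d' (i + 1)) y).symm⟩
  · intro i
    exact Fintype.card_fin _


theorem exists_finRes_card {V : Type u} [Fintype V] [DecidableEq V] {G : SimpleGraph V} {H : Subgroup (RACG G)}
    (F : Frame H) {r : V → ℕ} (hr : Function.Injective r) :
    ∃ R : FinRes H, ∀ i, Fintype.card (R.ι i) = Fintype.card (F.J i) := by
  classical
  exact finRes_of_lin_card (Γ := H) (fun i => F.J i) (fun i => F.dd r i) F.ag (pdRes F hr).aug_smul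
    (pdRes F hr).aug_surj (pdRes F hr).exact_zero (pdRes F hr).exact_succ

open Classical in
/-- the number of cells of dimension `i` -/
theorem card_J {V : Type u} [Fintype V] {G : SimpleGraph V} {H : Subgroup (RACG G)} (F : Frame H) (i : ℕ) :
    (Fintype.card (F.J i) : ℚ) = H.index * ∑ S ∈ Finset.univ.filter (fun S : Finset V => G.IsClique S ∧ S.card = i),
      (1 / 2 : ℚ) ^ i := by
  have h1 : Fintype.card (F.J i) = ∑ S : {S : Finset V // G.IsClique S ∧ S.card = i}, Fintype.card (F.O S.1) :=
    Fintype.card_sigma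
  rw [h1, Nat.cast_sum, Finset.mul_sum]
  have h2 : ∀ S : {S : Finset V // G.IsClique S ∧ S.card = i}, (Fintype.card (F.O S.1) : ℚ) = H.index * (1 / 2 : ℚ) ^ i := by
    intro S
    have h3 := card_O F S.2.1
    rw [S.2.2] at h3
    rw [← h3]
    push_cast
    rw [mul_assoc, ← mul_pow]
    norm_num
  rw [Finset.sum_congr rfl fun S _ => h2 S]
  rw [Finset.sum_const, Finset.sum_const]
  congr 1
  rw [Finset.card_univ, Fintype.card_subtype]

open Classical in
/-- the Euler characteristic of the complex of cells -/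
theorem euler_J {V : Type u} [Fintype V] {G : SimpleGraph V} {H : Subgroup (RACG G)} (F : Frame H) (N : ℕ)
    (hN : Fintype.card V ≤ N) :
    ((∑ i ∈ Finset.range (N + 1), (-1 : ℤ) ^ i * (Fintype.card (F.J i) : ℤ) : ℤ) : ℚ) =
      H.index * ∑ S ∈ Finset.univ.filter (fun S : Finset V => G.IsClique S), (-1 / 2 : ℚ) ^ S.card := by
  have h1 : ∑ S ∈ Finset.univ.filter (fun S : Finset V => G.IsClique S), (-1 / 2 : ℚ) ^ S.card =
      ∑ i ∈ Finset.range (N + 1), ∑ S ∈ Finset.univ.filter (fun S : Finset V => G.IsClique S ∧ S.card = i),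
        (-1 / 2 : ℚ) ^ i := by
    rw [← Finset.sum_fiberwise_of_maps_to (s := Finset.univ.filter (fun S : Finset V => G.IsClique S))
      (t := Finset.range (N + 1)) (g := fun S => S.card)]
    · refine Finset.sum_congr rfl fun i _ => ?_
      rw [Finset.filter_filter]
      refine Finset.sum_congr rfl fun S hS => ?_
      rw [(Finset.mem_filter.1 hS).2.2]
    · intro S _
      have := Finset.card_le_univ S
      exact Finset.mem_range.2 (by omega)
  rw [h1, Int.cast_sum, Finset.mul_sum]
  refine Finset.sum_congr rfl fun i _ => ?_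
  rw [Int.cast_mul, Int.cast_pow, Int.cast_neg, Int.cast_one, Int.cast_natCast, card_J, Finset.sum_const, Finset.sum_const]
  have h2 : (-1 / 2 : ℚ) ^ i = (-1) ^ i * (1 / 2) ^ i := by
    rw [← mul_pow]
    norm_num
  rw [h2, nsmul_eq_mul, nsmul_eq_mul]
  ring

end Helper6CD
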