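import Mathlib

/-!
# Finite simplicial complexes, reduced simplicial homology, homology spheres
-/

set_option autoImplicit false

namespace FlagSphere

/-- a simplicial complex with vertex set `V`, given by its faces: finite sets of vertices, the empty face included -/
structure Complex (V : Type) where
  faces : Set (Finset V)
  empty_mem : ∅ ∈ faces
  vertex_mem : ∀ v : V, {v} ∈ faces
  down_closed : ∀ S ∈ faces, ∀ T ⊆ S, T ∈ faces

/-- the complex is flag: every finite set of vertices which are pairwise joined by edges is a face -/
def Complex.IsFlag {V : Type} [DecidableEq V] (K : Complex V) : Prop :=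
  ∀ S : Finset V, (∀ u ∈ S, ∀ v ∈ S, u ≠ v → {u, v} ∈ K.faces) → S ∈ K.faces

/-- the faces of the link of the face `F` -/
def link {V : Type} [DecidableEq V] (X : Set (Finset V)) (F : Finset V) : Set (Finset V) :=
  {T | Disjoint T F ∧ T ∪ F ∈ X}

section homology
variable (A : Type) [CommRing A] {V : Type}

/-- the chains with coefficients in `A` on the faces with `i` vertices, i.e. the faces of dimension `i - 1` -/
def chains (X : Set (Finset V)) (i : ℕ) : Submodule A (Finset V → A) where
  carrier := {c | ∀ S, c S ≠ 0 → S ∈ X ∧ S.card = i}
  zero_mem' _ h := absurd rfl h
  add_mem' {a b} ha hb S h := by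
    by_cases h1 : a S = 0
    · exact hb S fun h2 => h (by rw [Pi.add_apply, h1, h2, add_zero])
    · exact ha S h1
  smul_mem' a c hc S h := hc S fun h1 => h (by rw [Pi.smul_apply, h1, smul_zero])

variable [Fintype V] [LinearOrder V]

/-- the simplicial boundary: the coefficient of the boundary of `c` at the face `S` is the sum over the vertices `v`
outside of `S` of `(-1) ^ k * c (S ∪ {v})`, where `k` is the number of the vertices of `S` before `v` -/
noncomputable def boundary : (Finset V → A) →ₗ[A] (Finset V → A) where
  toFun c S := ∑ v ∈ Sᶜ, (-1) ^ (S.filter fun t => t < v).card * c (insert v S)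
  map_add' c e := by
    funext S
    simp only [Pi.add_apply, mul_add, Finset.sum_add_distrib]
  map_smul' a c := by
    funext S
    simp only [Pi.smul_apply, smul_eq_mul, RingHom.id_apply, Finset.mul_sum]
    exact Finset.sum_congr rfl fun v _ => by ring

/-- the cycles of dimension `i - 1` -/
noncomputable def cycles (X : Set (Finset V)) (i : ℕ) : Submodule A (Finset V → A) :=
  chains A X i ⊓ LinearMap.ker (boundary A)

/-- the boundaries of dimension `i - 1` -/
noncomputable def boundaries (X : Set (Finset V)) (i : ℕ) : Submodule A (Finset V → A) :=
  (chains A X (i + 1)).map (boundary A)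

/-- the reduced homology of the complex with the faces `X` in dimension `i - 1` with coefficients in `A` -/
abbrev Homology (X : Set (Finset V)) (i : ℕ) : Type :=
  cycles A X i ⧸ (boundaries A X i).submoduleOf (cycles A X i)

/-- the complex with the faces `X` has the same reduced homology with coefficients in `A` as the sphere of dimension
`m - 1` (for `m = 0` this is the empty sphere, with homology in dimension `-1`) -/
def SphereHomology (X : Set (Finset V)) (m : ℕ) : Prop :=
  Nonempty (Homology A X m ≃ₗ[A] A) ∧ ∀ i, i ≠ m → Subsingleton (Homology A X i)

/-- the complex is an `A`-homology sphere of dimension `n - 1`: every face `F` (the empty face included) has at most `n`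
vertices and its link has the same reduced homology as the sphere of dimension `n - 1 - |F|` -/
def HomologySphere (X : Set (Finset V)) (n : ℕ) : Prop :=
  ∀ F ∈ X, F.card ≤ n ∧ SphereHomology A (link X F) (n - F.card)

end homology

end FlagSphere
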