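import Pool.Agent.SQ.Dua

/-!
# The Euler characteristic of a finite free resolution whose cohomology with coefficients in a skew field is
concentrated in one degree

`euler_nonneg`: if `H^i(H; D) = 0` for `i ≠ m` (`Ex (lmul ρ) R i`) then `(-1)^m χ(R) ≥ 0`.
-/

set_option autoImplicit false

open scoped Matrix

namespace Helper6CD

open Singer SQ

section lin
variable {D : Type} [DivisionRing D]

/-- `D` as a module over the opposite ring has rank one -/
noncomputable def opEquiv : D ≃ₗ[Dᵐᵒᵖ] Dᵐᵒᵖ where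
  toFun x := MulOpposite.op x
  invFun x := MulOpposite.unop x
  left_inv _ := rfl
  right_inv _ := rfl
  map_add' _ _ := rfl
  map_smul' _ _ := rfl

theorem finrank_op : Module.finrank Dᵐᵒᵖ D = 1 := by
  rw [LinearEquiv.finrank_eq (opEquiv (D := D))]
  exact Module.finrank_self _

instance : Module.Finite Dᵐᵒᵖ D := Module.Finite.equiv (opEquiv (D := D)).symm

theorem finrank_pi_op (ι : Type) [Fintype ι] : Module.finrank Dᵐᵒᵖ (ι → D) = Fintype.card ι := by
  rw [Module.finrank_pi_fintype]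
  simp [finrank_op]

/-- left multiplication by a matrix, linear for the right multiplications -/
noncomputable def mlin {α β : Type} [Fintype β] (Q : Matrix α β D) : (β → D) →ₗ[Dᵐᵒᵖ] (α → D) where
  toFun f := Q *ᵥ f
  map_add' f g := Matrix.mulVec_add Q f g
  map_smul' c f := by
    funext a
    simp only [Matrix.mulVec, dotProduct, Pi.smul_apply, MulOpposite.smul_eq_mul_unop, RingHom.id_apply,
      Finset.sum_mul, mul_assoc]

end lin

/-- alternating sums with a pairing -/
theorem alt_sum (k r : ℕ → ℤ) (m N : ℕ) (h0 : m ≠ 0 → k 0 = 0) (hk : ∀ j, j + 1 ≠ m → k (j + 1) = r j) :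
    ∑ i ∈ Finset.range (N + 1), (-1) ^ i * (k i + r i) = (-1) ^ N * r N +
      if m ≤ N then (-1) ^ m * (k m - if m = 0 then 0 else r (m - 1)) else 0 := by
  induction N with
  | zero =>
    by_cases hm : m = 0
    · subst hm
      simp
      ring
    · simp [h0 hm, hm]
  | succ N ih =>
    rw [Finset.sum_range_succ, ih]
    by_cases h1 : m ≤ N
    · rw [if_pos h1, if_pos (show m ≤ N + 1 by omega), hk N (by omega)]
      ring
    · rw [if_neg h1]
      by_cases h2 : m = N + 1
      · subst h2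
        rw [if_pos le_rfl, if_neg (show ¬ (N + 1 = 0) by omega)]
        have : N + 1 - 1 = N := rfl
        rw [this]
        ring
      · rw [if_neg (show ¬ m ≤ N + 1 by omega), hk N (by omega)]
        ring

section main
variable {H : Type} [Group H] {D : Type} [DivisionRing D] [Algebra (ZMod 2) D]

theorem euler_nonneg (ρ : H →* Dˣ) (R : FinRes H) (m N : ℕ) (hN : IsEmpty (R.ι (N + 1)))
    (hex : ∀ i, i ≠ m → Ex (lmul ρ) R i) :
    0 ≤ (-1 : ℤ) ^ m * ∑ i ∈ Finset.range (N + 1), (-1) ^ i * (Fintype.card (R.ι i) : ℤ) := by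
  classical
  let d : ∀ i, (R.ι i → D) →ₗ[Dᵐᵒᵖ] (R.ι (i + 1) → D) := fun i => mlin ((R.d i).map (Dua.ev ρ))
  have hd : ∀ i f, SQ.cobd (lmul ρ) (R.d i) f = d i f := fun i f => Dua.cobd_eq ρ (R.d i) f
  have hcomp : ∀ i f, d (i + 1) (d i f) = 0 := by
    intro i f
    show (R.d (i + 1)).map (Dua.ev ρ) *ᵥ ((R.d i).map (Dua.ev ρ) *ᵥ f) = 0
    rw [Matrix.mulVec_mulVec, Dua.ev_comp_zero, Matrix.zero_mulVec]
  let k : ℕ → ℤ := fun i => (Module.finrank Dᵐᵒᵖ (LinearMap.ker (d i)) : ℤ)
  let r : ℕ → ℤ := fun i => (Module.finrank Dᵐᵒᵖ (LinearMap.range (d i)) : ℤ)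
  have hc : ∀ i, (Fintype.card (R.ι i) : ℤ) = k i + r i := by
    intro i
    have h1 := LinearMap.finrank_range_add_finrank_ker (d i)
    rw [finrank_pi_op] at h1
    rw [← h1]
    push_cast
    ring
  have hle : ∀ i, LinearMap.range (d i) ≤ LinearMap.ker (d (i + 1)) := by
    rintro i _ ⟨f, rfl⟩
    exact hcomp i f
  have hrk : ∀ i, r i ≤ k (i + 1) := by
    intro i
    show ((Module.finrank Dᵐᵒᵖ (LinearMap.range (d i)) : ℕ) : ℤ) ≤
      ((Module.finrank Dᵐᵒᵖ (LinearMap.ker (d (i + 1))) : ℕ) : ℤ)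
    exact_mod_cast Submodule.finrank_mono (hle i)
  have heq : ∀ j, j + 1 ≠ m → k (j + 1) = r j := by
    intro j hj
    have h1 : LinearMap.ker (d (j + 1)) ≤ LinearMap.range (d j) := by
      intro f hf
      have h2 : SQ.cobd (lmul ρ) (R.d (j + 1)) f = 0 := (hd _ _).trans hf
      obtain ⟨e, he⟩ := hex (j + 1) hj f h2
      exact ⟨e, (hd _ _).symm.trans he⟩
    have h3 : LinearMap.ker (d (j + 1)) = LinearMap.range (d j) := le_antisymm h1 (hle j)
    show ((Module.finrank Dᵐᵒᵖ (LinearMap.ker (d (j + 1))) : ℕ) : ℤ) = _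
    rw [h3]
  have h0 : m ≠ 0 → k 0 = 0 := by
    intro hm
    have h1 : LinearMap.ker (d 0) = ⊥ := by
      rw [eq_bot_iff]
      intro f hf
      have h2 : SQ.cobd (lmul ρ) (R.d 0) f = 0 := (hd _ _).trans hf
      exact hex 0 hm.symm f h2
    show ((Module.finrank Dᵐᵒᵖ (LinearMap.ker (d 0)) : ℕ) : ℤ) = 0
    rw [h1, finrank_bot]
    rfl
  have hrN : r N = 0 := by
    have h1 : LinearMap.range (d N) = ⊥ := by
      rw [eq_bot_iff]
      rintro _ ⟨f, rfl⟩
      rw [Submodule.mem_bot]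
      funext a
      exact (hN.false a).elim
    show ((Module.finrank Dᵐᵒᵖ (LinearMap.range (d N)) : ℕ) : ℤ) = 0
    rw [h1, finrank_bot]
    rfl
  simp only [hc]
  rw [alt_sum k r m N h0 heq, hrN, mul_zero, zero_add]
  split_ifs with h1 h2
  · subst h2
    have : 0 ≤ k 0 := Int.natCast_nonneg _
    simpa using this
  · obtain ⟨j, rfl⟩ : ∃ j, m = j + 1 := ⟨m - 1, by omega⟩
    rw [← mul_assoc, ← pow_add, Even.neg_one_pow ⟨j + 1, rfl⟩, one_mul]
    exact sub_nonneg.2 (hrk j)
  · simp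

end main

end Helper6CD
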