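import Pool.Agent.Helper6.CD.Euler
import Pool.Agent.Helper6.CD.Count
import Pool.Agent.SQ.Fin
import Pool.Agent.SQ.LemAll
import Pool.Agent.SQ.Tower

/-!
# The Charney-Davis inequality from the vanishing theorem
-/

set_option autoImplicit false
set_option linter.unusedSectionVars false
set_option linter.unusedVariables false

namespace Helper6CD

open Singer

/-- the Euler characteristic of the finite free resolution of a Poincare duality group in a right-angled Coxeter group -/
theorem euler_pd {V : Type} [Finite V] (G : SimpleGraph V) {K : Type} [Group K] (f : K →* commutator (RACG G))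
    (hf : Function.Injective f) {m : ℕ} (hn : IsPD (2 * m) K) (R : FinRes K) (N : ℕ) (hN : IsEmpty (R.ι (N + 1))) :
    0 ≤ (-1 : ℤ) ^ m * ∑ i ∈ Finset.range (N + 1), (-1) ^ i * (Fintype.card (R.ι i) : ℤ) := by
  have : Fintype V := Fintype.ofFinite V
  obtain ⟨T⟩ := SQ.tower V G (commutator (RACG G)) le_rfl
  have hinv : ∀ h : K, h * h = 1 → h = 1 := by
    intro h hh
    have h3 : f h * f h = 1 := by rw [← map_mul, hh, map_one]
    exact hf ((SQ.FinSt.noInv_comm (f h) h3).trans (map_one f).symm)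
  exact euler_nonneg (T.rho.comp f) R m N hN fun i hi =>
    SQ.FinSt.vanish SQ.lem hinv (T.res SQ.s_free f hf) hn R i (by omega)

open Classical in
/-- **the Charney-Davis inequality** -/
theorem cd_of_goodQ {m : ℕ} {V : Type} [Fintype V] {G : SimpleGraph V}
    (h : GoodQ (fun n {V} [Fintype V] (G : SimpleGraph V) => QS n G) (2 * m) G) :
    0 ≤ (-1 : ℚ) ^ m * ∑ S ∈ Finset.univ.filter (fun S : Finset V => G.IsClique S), (-1 / 2 : ℚ) ^ S.card := by
  have hi : (commutator (RACG G)).FiniteIndex := SQ.FinSt.finiteIndex_commutator G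
  have hH : NoInv (commutator (RACG G)) := fun x hx hxx => by
    have h1 := SQ.FinSt.noInv_comm (G := G) (⟨x, hx⟩ : commutator (RACG G)) (Subtype.ext hxx)
    exact congrArg Subtype.val h1
  have hPD : IsPD (2 * m) (commutator (RACG G)) := isPD_of_goodQ h hi hH
  have hr : Function.Injective (rk : V → ℕ) := fun a b hab => (Fintype.equivFin V).injective (Fin.ext hab)
  obtain ⟨F⟩ := exists_frame hH.fr
  obtain ⟨R, hR⟩ := exists_finRes_card F hr
  have hN : IsEmpty (R.ι (Fintype.card V + 1)) := by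
    rw [← Fintype.card_eq_zero_iff, hR, Fintype.card_eq_zero_iff]
    refine ⟨fun j => ?_⟩
    have h1 := j.1.2.2
    have h2 := Finset.card_le_univ j.1.1
    omega
  have h1 := euler_pd G (MonoidHom.id _) (fun a b hab => hab) hPD R (Fintype.card V) hN
  simp only [hR] at h1
  have h2 := euler_J F (Fintype.card V) le_rfl
  have h3 : (0 : ℚ) ≤ (-1 : ℚ) ^ m * ((∑ i ∈ Finset.range (Fintype.card V + 1), (-1 : ℤ) ^ i *
      (Fintype.card (F.J i) : ℤ) : ℤ) : ℚ) := by
    have h4 : (0 : ℚ) ≤ (((-1 : ℤ) ^ m * ∑ i ∈ Finset.range (Fintype.card V + 1), (-1 : ℤ) ^ i *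
      (Fintype.card (F.J i) : ℤ) : ℤ) : ℚ) := by exact_mod_cast h1
    rw [Int.cast_mul, Int.cast_pow, Int.cast_neg, Int.cast_one] at h4
    exact h4
  rw [h2] at h3
  have h5 : (0 : ℚ) < (commutator (RACG G)).index := by
    exact_mod_cast Nat.pos_of_ne_zero hi.index_ne_zero
  have h6 : (-1 : ℚ) ^ m * (((commutator (RACG G)).index : ℚ) *
      ∑ S ∈ Finset.univ.filter (fun S : Finset V => G.IsClique S), (-1 / 2 : ℚ) ^ S.card) =
      ((commutator (RACG G)).index : ℚ) * ((-1 : ℚ) ^ m *
      ∑ S ∈ Finset.univ.filter (fun S : Finset V => G.IsClique S), (-1 / 2 : ℚ) ^ S.card) := by ring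
  rw [h6] at h3
  exact nonneg_of_mul_nonneg_right h3 h5

end Helper6CD
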