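import Pool.Agent.Helper6.CD.Std
import Pool.Agent.Helper6.CD.Main

/-!
# The Charney-Davis inequality for integral flag homology spheres
-/

set_option autoImplicit false

namespace Helper6CD

open Singer FlagSphere

open Classical in
theorem cd_of_homologySphere {V : Type} [Fintype V] [LinearOrder V] {K : Complex V} (hK : K.IsFlag) {n : ℕ}
    (h : HomologySphere ℤ K.faces (2 * n)) :
    0 ≤ (-1 : ℚ) ^ n * ∑ S ∈ Finset.univ.filter (fun S : Finset V => S ∈ K.faces), (-1 / 2 : ℚ) ^ S.card := by
  have h1 := cd_of_goodQ (goodQ_of_SG (2 * n) (SG_of_homologySphere hK h))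
  simp only [isClique_grf hK] at h1
  exact h1

end Helper6CD
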