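import Pool.Agent.Helper6.CD.Fin

/-!
# The top coefficient of the gamma vector of a flag homology sphere
-/

set_option autoImplicit false
set_option linter.unusedSectionVars false
set_option linter.unusedVariables false

namespace Helper6CD

open Singer FlagSphere

set_option maxHeartbeats 400000

section lk
variable {V : Type} [Fintype V] [DecidableEq V] {G : SimpleGraph V}

/-- sums over the link -/
theorem sum_link {V' : Type} [Fintype V'] (j : V' ↪ V) (v : V) (hv : ∀ x, j x ≠ v) (P' : Finset V' → Prop)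
    (P : Finset V → Prop) [DecidablePred P'] [DecidablePred P] (h1 : ∀ S, P' S ↔ P (insert v (S.map j)))
    (h2 : ∀ T, P T → v ∈ T → ∀ x ∈ T, x ≠ v → ∃ y, j y = x) (a : ℚ) :
    ∑ S ∈ Finset.univ.filter (fun S : Finset V' => P' S), a ^ S.card =
      ∑ T ∈ Finset.univ.filter (fun T : Finset V => P T ∧ v ∈ T), a ^ (T.card - 1) := by
  have hvj : ∀ S : Finset V', v ∉ S.map j := by
    intro S hS
    obtain ⟨x, _, hx⟩ := Finset.mem_map.1 hS
    exact hv x hx
  refine Finset.sum_bij (fun S _ => insert v (S.map j)) ?_ ?_ ?_ ?_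
  · intro S hS
    exact Finset.mem_filter.2 ⟨Finset.mem_univ _, (h1 S).1 (Finset.mem_filter.1 hS).2, Finset.mem_insert_self _ _⟩
  · intro S _ S' _ h3
    have h4 : S.map j = S'.map j := by
      rw [← Finset.erase_insert (hvj S), h3, Finset.erase_insert (hvj S')]
    exact Finset.map_injective j h4
  · intro T hT
    obtain ⟨_, hT1, hT2⟩ := Finset.mem_filter.1 hT
    have hpre : ((T.erase v).preimage j j.injective.injOn).map j = T.erase v := by
      ext x
      rw [Finset.mem_map]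
      constructor
      · rintro ⟨y, hy, rfl⟩
        exact Finset.mem_preimage.1 hy
      · intro hx
        obtain ⟨h4, h5⟩ := Finset.mem_erase.1 hx
        obtain ⟨y, hy⟩ := h2 T hT1 hT2 x h5 h4
        exact ⟨y, Finset.mem_preimage.2 (by rw [hy]; exact hx), hy⟩
    refine ⟨(T.erase v).preimage j j.injective.injOn, ?_, ?_⟩
    · refine Finset.mem_filter.2 ⟨Finset.mem_univ _, (h1 _).2 ?_⟩
      rw [hpre, Finset.insert_erase hT2]
      exact hT1
    · rw [hpre, Finset.insert_erase hT2]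
  · intro S _
    rw [Finset.card_insert_of_notMem (hvj S), Finset.card_map, Nat.add_sub_cancel]

theorem clique_link (v : V) (S : Finset {w // G.Adj v w}) :
    (Singer.lk G v).IsClique (S : Set {w // G.Adj v w}) ↔
      G.IsClique ((insert v (S.map (Function.Embedding.subtype _)) : Finset V) : Set V) := by
  rw [isClique_map]
  constructor
  · intro h
    refine isClique_insert h fun x hx _ => ?_
    obtain ⟨y, _, rfl⟩ := Finset.mem_map.1 hx
    exact y.2
  · intro h
    exact h.subset (Finset.coe_subset.2 (Finset.subset_insert _ _))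

/-- the inequality for any decision procedure -/
theorem cd_of_goodQ' {m : ℕ} {V : Type} [Fintype V] {G : SimpleGraph V}
    [DecidablePred fun S : Finset V => G.IsClique (S : Set V)]
    (h : GoodQ (fun n {V} [Fintype V] (G : SimpleGraph V) => QS n G) (2 * m) G) :
    0 ≤ (-1 : ℚ) ^ m * ∑ S ∈ Finset.univ.filter (fun S : Finset V => G.IsClique (S : Set V)), (-1 / 2 : ℚ) ^ S.card := by
  refine (cd_of_goodQ h).trans_eq (congrArg _ ?_)
  exact Finset.sum_congr (Finset.ext fun S => by simp only [Finset.mem_filter]) fun _ _ => rfl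

open Classical in
theorem cd_link {m : ℕ} (h : SG (2 * m + 1) G) (v : V) :
    0 ≤ (-1 : ℚ) ^ m * ∑ T ∈ Finset.univ.filter (fun T : Finset V => G.IsClique T ∧ v ∈ T), (-1 / 2 : ℚ) ^ (T.card - 1) := by
  have inst : Fintype {w // G.Adj v w} := Fintype.ofFinite _
  have h0 := goodQ_of_SG (2 * m) (h.lk v)
  have h1 := cd_of_goodQ' h0
  have h3 := sum_link (V := V) (Function.Embedding.subtype (fun w => G.Adj v w)) v (fun x hx => by
      have h1 : (x : V) = v := hx
      have h2 : G.Adj v (x : V) := x.2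
      rw [h1] at h2
      exact G.loopless.1 v h2)
    (fun S : Finset {w // G.Adj v w} => (Singer.lk G v).IsClique (S : Set {w // G.Adj v w}))
    (fun T : Finset V => G.IsClique (T : Set V)) (fun S => clique_link v S)
    (fun T hT hvT x hx hxv => ⟨⟨x, hT (Finset.mem_coe.2 hvT) (Finset.mem_coe.2 hx) hxv.symm⟩, rfl⟩) (-1 / 2 : ℚ)
  rw [h3] at h1
  exact h1

open Classical in
theorem cd_odd {m : ℕ} (h : SG (2 * m + 1) G) :
    0 ≤ (-1 : ℚ) ^ m * ∑ T ∈ Finset.univ.filter (fun T : Finset V => G.IsClique T), T.card * (-1 / 2 : ℚ) ^ (T.card - 1) := by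
  have h1 : ∑ T ∈ Finset.univ.filter (fun T : Finset V => G.IsClique T), T.card * (-1 / 2 : ℚ) ^ (T.card - 1) =
      ∑ v : V, ∑ T ∈ Finset.univ.filter (fun T : Finset V => G.IsClique T ∧ v ∈ T), (-1 / 2 : ℚ) ^ (T.card - 1) := by
    have h2 : ∀ v : V, ∑ T ∈ Finset.univ.filter (fun T : Finset V => G.IsClique T ∧ v ∈ T), (-1 / 2 : ℚ) ^ (T.card - 1) =
        ∑ T ∈ Finset.univ.filter (fun T : Finset V => G.IsClique T), if v ∈ T then (-1 / 2 : ℚ) ^ (T.card - 1) else 0 := by
      intro v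
      rw [← Finset.filter_filter, Finset.sum_filter (p := fun T : Finset V => v ∈ T)]
    rw [Finset.sum_congr rfl fun v _ => h2 v, Finset.sum_comm]
    refine Finset.sum_congr rfl fun T _ => ?_
    rw [← Finset.sum_filter, Finset.sum_const, nsmul_eq_mul]
    congr 2
    congr 1
    ext x
    simp
  rw [h1, Finset.mul_sum]
  exact Finset.sum_nonneg fun v _ => cd_link h v

end lk

/-! ### polynomials -/

section poly
open Polynomial

/-- the h-polynomial from the face numbers -/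
theorem eval_even {m : ℕ} (f : ℕ → ℤ) (γ : ℕ → ℤ)
    (h : ∑ j ∈ Finset.range (2 * m + 1), C (f j) * X ^ j * (1 - X) ^ (2 * m - j) =
      ∑ i ∈ Finset.range (m + 1), C (γ i) * X ^ i * (1 + X) ^ (2 * m - 2 * i)) :
    (γ m : ℚ) = 2 ^ (2 * m) * ((-1) ^ m * ∑ j ∈ Finset.range (2 * m + 1), (f j : ℚ) * (-1 / 2) ^ j) := by
  have h1 := congrArg (fun p => ((p.eval (-1) : ℤ) : ℚ)) h
  simp only [eval_finsetSum, eval_mul, eval_C, eval_pow, eval_X, eval_sub, eval_one, eval_add] at h1
  rw [Finset.sum_range_succ (n := m)] at h1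
  have h2 : ∑ x ∈ Finset.range m, γ x * (-1) ^ x * (1 + -1) ^ (2 * m - 2 * x) = 0 := by
    refine Finset.sum_eq_zero fun x hx => ?_
    have := Finset.mem_range.1 hx
    rw [show (1 + -1 : ℤ) = 0 by norm_num, zero_pow (by omega), mul_zero]
  rw [h2, zero_add, Nat.sub_self, pow_zero, mul_one] at h1
  have h3 : (((∑ x ∈ Finset.range (2 * m + 1), f x * (-1) ^ x * (1 - -1) ^ (2 * m - x) : ℤ)) : ℚ) =
      2 ^ (2 * m) * ∑ j ∈ Finset.range (2 * m + 1), (f j : ℚ) * (-1 / 2) ^ j := by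
    rw [Int.cast_sum, Finset.mul_sum]
    refine Finset.sum_congr rfl fun j hj => ?_
    have hj' : j ≤ 2 * m := by
      have := Finset.mem_range.1 hj
      omega
    have h4 : (2 : ℚ) ^ (2 * m) = 2 ^ (2 * m - j) * 2 ^ j := by
      rw [← pow_add, Nat.sub_add_cancel hj']
    have h5 : (2 : ℚ) ^ j * (-1 / 2) ^ j = (-1) ^ j := by
      rw [← mul_pow]
      norm_num
    push_cast
    rw [h4, ← h5]
    norm_num
    ring
  rw [h3] at h1
  have h6 : ((-1 : ℚ) ^ m) * (-1) ^ m = 1 := by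
    rw [← mul_pow]
    norm_num
  push_cast at h1
  have h7 : (γ m : ℚ) = (γ m : ℚ) * ((-1) ^ m * (-1) ^ m) := by rw [h6, mul_one]
  rw [h7, ← mul_assoc, ← h1]
  ring

theorem eval_odd {m : ℕ} (f : ℕ → ℤ) (γ : ℕ → ℤ)
    (h : ∑ j ∈ Finset.range (2 * m + 1 + 1), C (f j) * X ^ j * (1 - X) ^ (2 * m + 1 - j) =
      ∑ i ∈ Finset.range (m + 1), C (γ i) * X ^ i * (1 + X) ^ (2 * m + 1 - 2 * i)) :
    2 * (γ m : ℚ) = 2 ^ (2 * m) * ((-1) ^ m * ∑ j ∈ Finset.range (2 * m + 1 + 1), (f j : ℚ) * (j * (-1 / 2) ^ (j - 1))) := by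
  -- the value at -1
  have h1 := congrArg (fun p => ((p.eval (-1) : ℤ) : ℚ)) h
  have h2 := congrArg (fun p => ((p.derivative.eval (-1) : ℤ) : ℚ)) h
  simp only [eval_finsetSum, eval_mul, eval_C, eval_pow, eval_X, eval_sub, eval_one, eval_add] at h1
  have h3 : ∑ x ∈ Finset.range (m + 1), γ x * (-1) ^ x * (1 + -1) ^ (2 * m + 1 - 2 * x) = 0 := by
    refine Finset.sum_eq_zero fun x hx => ?_
    have := Finset.mem_range.1 hx
    rw [show (1 + -1 : ℤ) = 0 by norm_num, zero_pow (by omega), mul_zero]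
  rw [h3] at h1
  have hpow : ∀ j, j ≤ 2 * m + 1 → (2 : ℚ) ^ (2 * m + 1 - j) * (-1) ^ j = 2 ^ (2 * m + 1) * (-1 / 2) ^ j := by
    intro j hj
    have h4 : (2 : ℚ) ^ (2 * m + 1) = 2 ^ (2 * m + 1 - j) * 2 ^ j := by
      rw [← pow_add, Nat.sub_add_cancel hj]
    have h5 : (2 : ℚ) ^ j * (-1 / 2) ^ j = (-1) ^ j := by
      rw [← mul_pow]
      norm_num
    rw [h4, mul_assoc, h5]
  have h4 : ∑ j ∈ Finset.range (2 * m + 1 + 1), (f j : ℚ) * (-1 / 2) ^ j = 0 := by
    have h5 : (((∑ x ∈ Finset.range (2 * m + 1 + 1), f x * (-1) ^ x * (1 - -1) ^ (2 * m + 1 - x) : ℤ)) : ℚ) =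
        2 ^ (2 * m + 1) * ∑ j ∈ Finset.range (2 * m + 1 + 1), (f j : ℚ) * (-1 / 2) ^ j := by
      rw [Int.cast_sum, Finset.mul_sum]
      refine Finset.sum_congr rfl fun j hj => ?_
      have hj' : j ≤ 2 * m + 1 := by
        have := Finset.mem_range.1 hj
        omega
      have h6 := hpow j hj'
      push_cast
      linear_combination (f j : ℚ) * h6
    rw [h5] at h1
    have h6 : (2 : ℚ) ^ (2 * m + 1) ≠ 0 := by positivity
    have h7 : (2 : ℚ) ^ (2 * m + 1) * ∑ j ∈ Finset.range (2 * m + 1 + 1), (f j : ℚ) * (-1 / 2) ^ j = 0 := by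
      simpa using h1
    exact (mul_eq_zero.1 h7).resolve_left h6
  -- the derivative
  have h5 : ∀ j, j ≤ 2 * m + 1 → (((C (f j) * X ^ j * (1 - X) ^ (2 * m + 1 - j) : ℤ[X]).derivative.eval (-1) : ℤ) : ℚ) * 2 =
      2 ^ (2 * m + 1) * ((f j : ℚ) * (j * (-1 / 2) ^ (j - 1))) -
        (2 * m + 1 - j) * (2 ^ (2 * m + 1) * ((f j : ℚ) * (-1 / 2) ^ j)) := by
    intro j hj
    have h6 := hpow j hj
    rw [derivative_mul, derivative_mul, derivative_C, derivative_X_pow, derivative_pow, derivative_sub, derivative_one,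
      derivative_X]
    simp only [eval_add, eval_mul, eval_C, eval_pow, eval_X, eval_sub, eval_one, eval_zero, map_natCast, eval_natCast]
    push_cast
    rcases Nat.eq_zero_or_pos j with hj0 | hj0
    · subst hj0
      simp
      ring
    · obtain ⟨i, rfl⟩ : ∃ i, j = i + 1 := ⟨j - 1, by omega⟩
      have h7 : 2 * m + 1 - (i + 1) = 2 * m - i := by omega
      have h8 : (2 : ℚ) ^ (2 * m - i) * (-1) ^ i * 2 = 2 ^ (2 * m + 1) * (-1 / 2) ^ i := by
        have h9 : (2 : ℚ) ^ (2 * m + 1) = 2 ^ (2 * m - i) * 2 ^ i * 2 := by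
          rw [← pow_add, Nat.sub_add_cancel (by omega), pow_succ]
        have h10 : (2 : ℚ) ^ i * (-1 / 2) ^ i = (-1) ^ i := by
          rw [← mul_pow]
          norm_num
        rw [h9, ← h10]
        ring
      rw [h7] at h6 ⊢
      rw [Nat.add_sub_cancel]
      rcases Nat.eq_zero_or_pos (2 * m - i) with h9 | h9
      · have h10 : (i : ℚ) = 2 * m := by
          have : i = 2 * m := by omega
          rw [this]
          push_cast
          ring
        rw [h9] at h8 ⊢
        simp only [pow_zero] at h8 ⊢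
        push_cast
        rw [h10]
        simp
        linear_combination ((2 * (m : ℚ) + 1) * (f (i + 1) : ℚ)) * h8
      · obtain ⟨l, hl⟩ : ∃ l, 2 * m - i = l + 1 := ⟨2 * m - i - 1, by omega⟩
        have h10 : (i : ℚ) = 2 * m - (l + 1) := by
          have h11 : i + (l + 1) = 2 * m := by omega
          have h12 : ((i + (l + 1) : ℕ) : ℚ) = ((2 * m : ℕ) : ℚ) := by rw [h11]
          push_cast at h12
          linear_combination h12
        rw [hl] at h6 h8 ⊢
        rw [Nat.add_sub_cancel]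
        push_cast
        rw [pow_succ (2 : ℚ) l] at h6 h8 ⊢
        rw [h10] 
        linear_combination ((2 * (m : ℚ) - (l + 1) + 1) * (f (i + 1) : ℚ)) * h8 - ((l + 1 : ℚ) * (f (i + 1) : ℚ)) * h6
  have h6 : ∀ i, i ≤ m → (((C (γ i) * X ^ i * (1 + X) ^ (2 * m + 1 - 2 * i) : ℤ[X]).derivative.eval (-1) : ℤ) : ℚ) =
      if i = m then (γ m : ℚ) * (-1) ^ m else 0 := by
    intro i hi
    rw [derivative_mul, derivative_pow, derivative_add, derivative_one, derivative_X]
    simp only [eval_add, eval_mul, eval_C, eval_pow, eval_X, eval_one, eval_zero, map_natCast, eval_natCast]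
    rw [show (1 + -1 : ℤ) = 0 by norm_num]
    by_cases h7 : i = m
    · subst h7
      rw [if_pos rfl]
      have h8 : 2 * i + 1 - 2 * i = 1 := by omega
      rw [h8]
      push_cast
      simp
    · rw [if_neg h7, zero_pow (by omega), zero_pow (by omega)]
      simp
  rw [derivative_sum, derivative_sum, eval_finsetSum, eval_finsetSum, Int.cast_sum, Int.cast_sum] at h2
  have h7 : ∑ i ∈ Finset.range (m + 1), (((C (γ i) * X ^ i * (1 + X) ^ (2 * m + 1 - 2 * i) : ℤ[X]).derivative.eval (-1) : ℤ) : ℚ) =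
      (γ m : ℚ) * (-1) ^ m := by
    rw [Finset.sum_congr rfl fun i hi => h6 i (by have := Finset.mem_range.1 hi; omega), Finset.sum_ite_eq',
      if_pos (Finset.mem_range.2 (by omega))]
  rw [h7] at h2
  have h8 : (∑ j ∈ Finset.range (2 * m + 1 + 1),
      (((C (f j) * X ^ j * (1 - X) ^ (2 * m + 1 - j) : ℤ[X]).derivative.eval (-1) : ℤ) : ℚ)) * 2 =
      2 ^ (2 * m + 1) * (∑ j ∈ Finset.range (2 * m + 1 + 1), (f j : ℚ) * (j * (-1 / 2) ^ (j - 1))) +
        2 ^ (2 * m + 1) * (∑ j ∈ Finset.range (2 * m + 1 + 1), (f j : ℚ) * (j * (-1 / 2) ^ j)) := by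
    rw [Finset.sum_mul, Finset.mul_sum, Finset.mul_sum, ← Finset.sum_add_distrib]
    have h9 : ∑ j ∈ Finset.range (2 * m + 1 + 1), (2 * (m : ℚ) + 1) * (2 ^ (2 * m + 1) * ((f j : ℚ) * (-1 / 2) ^ j)) = 0 := by
      rw [← Finset.mul_sum, ← Finset.mul_sum, h4, mul_zero, mul_zero]
    rw [← sub_eq_zero, ← Finset.sum_sub_distrib, ← neg_eq_zero, ← h9, ← Finset.sum_neg_distrib]
    refine Finset.sum_congr rfl fun j hj => ?_
    rw [h5 j (by have := Finset.mem_range.1 hj; omega)]
    ring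
  have h10 : ∑ j ∈ Finset.range (2 * m + 1 + 1), (f j : ℚ) * (j * (-1 / 2) ^ j) =
      (-1 / 2) * ∑ j ∈ Finset.range (2 * m + 1 + 1), (f j : ℚ) * (j * (-1 / 2) ^ (j - 1)) := by
    rw [Finset.mul_sum]
    refine Finset.sum_congr rfl fun j _ => ?_
    rcases Nat.eq_zero_or_pos j with hj0 | hj0
    · subst hj0
      simp
    · obtain ⟨i, rfl⟩ : ∃ i, j = i + 1 := ⟨j - 1, by omega⟩
      rw [Nat.add_sub_cancel, pow_succ]
      ring
  rw [h10, h2] at h8
  have h11 : ((-1 : ℚ) ^ m) * (-1) ^ m = 1 := by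
    rw [← mul_pow]
    norm_num
  have h12 : (2 : ℚ) ^ (2 * m + 1) = 2 ^ (2 * m) * 2 := pow_succ _ _
  rw [h12] at h8
  linear_combination (-1 : ℚ) ^ m * h8 - 2 * (γ m : ℚ) * h11

end poly

end Helper6CD
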