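import Pool.Agent.Helper6.CD.Gamma

/-!
# The top coefficient of the gamma vector of a flag homology sphere: the final form
-/

set_option autoImplicit false
set_option maxHeartbeats 1000000

namespace Helper6CD

open Singer FlagSphere Polynomial

section grade
variable {V : Type} [Fintype V] (P : Finset V → Prop) [DecidablePred P]

/-- sums over faces and face numbers -/
theorem sum_card {d : ℕ} (hd : ∀ S, P S → S.card ≤ d) (g : ℕ → ℚ) :
    ∑ S ∈ Finset.univ.filter (fun S : Finset V => P S), g S.card =
      ∑ j ∈ Finset.range (d + 1), ((Finset.univ.filter fun S : Finset V => P S ∧ S.card = j).card : ℚ) * g j := by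
  rw [← Finset.sum_fiberwise_of_maps_to (s := Finset.univ.filter (fun S : Finset V => P S))
    (t := Finset.range (d + 1)) (g := fun S => S.card)]
  · refine Finset.sum_congr rfl fun i _ => ?_
    rw [Finset.filter_filter]
    have h : ∀ S ∈ Finset.univ.filter (fun S : Finset V => P S ∧ S.card = i), g S.card = g i :=
      fun S hS => by rw [(Finset.mem_filter.1 hS).2.2]
    rw [Finset.sum_congr rfl h, Finset.sum_const, nsmul_eq_mul]
  · intro S hS
    have := hd S (Finset.mem_filter.1 hS).2
    exact Finset.mem_range.2 (by omega)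

end grade

open Classical in
theorem gamma_top {V : Type} [Fintype V] [LinearOrder V] {K : Complex V} (hK : K.IsFlag) {d : ℕ}
    (h : SG d (grf K)) (γ : ℕ → ℤ)
    (hγ : ∑ j ∈ Finset.range (d + 1),
        C (((Finset.univ.filter fun S : Finset V => S ∈ K.faces ∧ S.card = j).card : ℕ) : ℤ) * X ^ j * (1 - X) ^ (d - j) =
      ∑ i ∈ Finset.range (d / 2 + 1), C (γ i) * X ^ i * (1 + X) ^ (d - 2 * i)) : 0 ≤ γ (d / 2) := by
  have hdim : ∀ S : Finset V, S ∈ K.faces → S.card ≤ d := fun S hS => h.1 S ((isClique_grf hK S).2 hS)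
  rcases Nat.even_or_odd' d with ⟨m, rfl | rfl⟩
  · have h0 : 2 * m / 2 = m := by omega
    rw [h0] at hγ ⊢
    have h1 := eval_even _ γ hγ
    have h2 := cd_of_goodQ' (goodQ_of_SG (2 * m) h)
    simp only [isClique_grf hK] at h2
    rw [sum_card (fun S : Finset V => S ∈ K.faces) hdim (fun j => (-1 / 2 : ℚ) ^ j)] at h2
    have h3 : (0 : ℚ) ≤ γ m := by
      rw [h1]
      refine mul_nonneg (by positivity) ?_
      refine h2.trans_eq (congrArg _ (Finset.sum_congr rfl fun j _ => ?_))
      rw [Int.cast_natCast]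
    exact_mod_cast h3
  · have h0 : (2 * m + 1) / 2 = m := by omega
    rw [h0] at hγ ⊢
    have h1 := eval_odd _ γ hγ
    have h2 := cd_odd h
    simp only [isClique_grf hK] at h2
    rw [sum_card (fun S : Finset V => S ∈ K.faces) hdim (fun j => (j : ℚ) * (-1 / 2 : ℚ) ^ (j - 1))] at h2
    have h3 : (0 : ℚ) ≤ 2 * γ m := by
      rw [h1]
      refine mul_nonneg (by positivity) ?_
      refine h2.trans_eq (congrArg _ (Finset.sum_congr rfl fun j _ => ?_))
      rw [Int.cast_natCast]
    have h4 : (0 : ℚ) ≤ γ m := by linarith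
    exact_mod_cast h4

end Helper6CD
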