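import Mathlib

/-!
MP_cd7e06_al, odd exponents: the Hall step.  Positive blocks `P` and negative blocks `Q`, each with
`n` marks; a map sends all but at most `D < n` marks of positive blocks to marks of negative
blocks, injectively.  Then there is a bijection of the blocks and a choice of one pair of
corresponding marks for every pair of corresponding blocks.
-/

set_option autoImplicit false

namespace H6CD

open Finset

/-- Hall for blocks, injective form. -/
theorem hall_inj {P Q M : Type*} [Fintype P] [Fintype Q] (n D : ℕ) (hn : D < n)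
    (mp : P → Fin n → M) (mq : Q → Fin n → M)
    (pi : M → M) (hpi : ∀ b i b' i', pi (mp b i) = pi (mp b' i') → b = b' ∧ i = i')
    (bad : Finset (P × Fin n)) (hbad : bad.card ≤ D)
    (h : ∀ b i, (b, i) ∉ bad → ∃ b' i', pi (mp b i) = mq b' i') :
    ∃ (sigma : P → Q) (u : P → Fin n) (v : P → Fin n), Function.Injective sigma ∧
      ∀ b, pi (mp b (u b)) = mq (sigma b) (v b) := by
  classical
  let t : P → Finset Q := fun b => univ.filter (fun b' => ∃ i i', pi (mp b i) = mq b' i')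
  have hall : ∀ J : Finset P, J.card ≤ (J.biUnion t).card := by
    intro J
    by_contra hlt
    push Not at hlt
    -- good marks of J
    let S : Finset (P × Fin n) := (J ×ˢ (univ : Finset (Fin n))) \ bad
    have hS1 : J.card * n ≤ S.card + D := by
      have h1 : (J ×ˢ (univ : Finset (Fin n))).card ≤ S.card + bad.card := by
        have := Finset.card_le_card_sdiff_add_card (s := J ×ˢ (univ : Finset (Fin n))) (t := bad)
        exact this
      rw [Finset.card_product, Finset.card_univ, Fintype.card_fin] at h1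
      omega
    have hS2 : S.card ≤ ((J.biUnion t) ×ˢ (univ : Finset (Fin n))).card := by
      have hch : ∀ x : P × Fin n, x ∈ S → ∃ y : Q × Fin n, pi (mp x.1 x.2) = mq y.1 y.2 := by
        intro x hx
        obtain ⟨b', i', e⟩ := h x.1 x.2 (Finset.mem_sdiff.1 hx).2
        exact ⟨(b', i'), e⟩
      choose F hF using hch
      rw [← Finset.card_attach]
      refine Finset.card_le_card_of_injOn (fun x => F x.1 x.2) ?_ ?_
      · intro x _
        have hx' := Finset.mem_sdiff.1 x.2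
        have hJ : x.1.1 ∈ J := (Finset.mem_product.1 hx'.1).1
        refine Finset.mem_coe.2 (Finset.mem_product.2 ⟨Finset.mem_biUnion.2 ⟨x.1.1, hJ, ?_⟩,
          Finset.mem_univ _⟩)
        exact Finset.mem_filter.2 ⟨Finset.mem_univ _, x.1.2, (F x.1 x.2).2, hF x.1 x.2⟩
      · intro x _ y _ hxy
        have e1 := hF x.1 x.2
        have e2 := hF y.1 y.2
        have hxy' : F x.1 x.2 = F y.1 y.2 := hxy
        rw [hxy', ← e2] at e1
        obtain ⟨h1, h2⟩ := hpi _ _ _ _ e1
        exact Subtype.ext (Prod.ext h1 h2)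
    rw [Finset.card_product, Finset.card_univ, Fintype.card_fin] at hS2
    have h3 : (J.biUnion t).card * n + n ≤ J.card * n := by
      have : (J.biUnion t).card + 1 ≤ J.card := hlt
      calc (J.biUnion t).card * n + n = ((J.biUnion t).card + 1) * n := by ring
        _ ≤ J.card * n := Nat.mul_le_mul_right _ this
    omega
  obtain ⟨sigma, hs1, hs2⟩ := (Finset.all_card_le_biUnion_card_iff_exists_injective t).1 hall
  have h4 : ∀ b, ∃ i i', pi (mp b i) = mq (sigma b) i' := fun b =>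
    (Finset.mem_filter.1 (hs2 b)).2
  choose u v huv using h4
  exact ⟨sigma, u, v, hs1, huv⟩

/-- Hall for blocks: the blocks are matched bijectively. -/
theorem hall_marks {P Q M : Type*} [Fintype P] [Fintype Q] (n D : ℕ) (hn : D < n)
    (mp : P → Fin n → M) (mq : Q → Fin n → M)
    (hcard : Fintype.card P = Fintype.card Q)
    (pi : M → M) (hpi : ∀ b i b' i', pi (mp b i) = pi (mp b' i') → b = b' ∧ i = i')
    (bad : Finset (P × Fin n)) (hbad : bad.card ≤ D)
    (h : ∀ b i, (b, i) ∉ bad → ∃ b' i', pi (mp b i) = mq b' i') :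
    ∃ (sigma : P ≃ Q) (u : P → Fin n) (v : Q → Fin n),
      ∀ b, pi (mp b (u b)) = mq (sigma b) (v (sigma b)) := by
  classical
  obtain ⟨s, u, v, hs, huv⟩ := hall_inj n D hn mp mq pi hpi bad hbad h
  have hb : Function.Bijective s := (Fintype.bijective_iff_injective_and_card s).2 ⟨hs, hcard⟩
  refine ⟨Equiv.ofBijective s hb, u, fun q => v ((Equiv.ofBijective s hb).symm q), fun b => ?_⟩
  have e : (Equiv.ofBijective s hb).symm ((Equiv.ofBijective s hb) b) = b :=
    Equiv.symm_apply_apply _ _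
  show pi (mp b (u b)) = mq (s b) (v ((Equiv.ofBijective s hb).symm
    ((Equiv.ofBijective s hb) b)))
  rw [e]
  exact huv b

/-- The same with finsets of blocks: the inequality. -/
theorem hall_card {B M : Type*} [DecidableEq B] (n D : ℕ) (hn : D < n) (P Q : Finset B)
    (mark : B → ℕ → M)
    (hp : ∀ b ∈ P, ∀ b' ∈ P, ∀ i < n, ∀ i' < n, mark b i = mark b' i' → b = b' ∧ i = i')
    (pi : M → M) (hpi : ∀ b ∈ P, ∀ i < n, pi (pi (mark b i)) = mark b i)
    (bad : Finset (B × ℕ)) (hbad : bad.card ≤ D)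
    (h : ∀ b ∈ P, ∀ i < n, (b, i) ∉ bad → ∃ b' ∈ Q, ∃ i' < n, pi (mark b i) = mark b' i') :
    P.card ≤ Q.card := by
  classical
  let bad' : Finset ({b // b ∈ P} × Fin n) :=
    Finset.univ.filter (fun x => (x.1.1, x.2.1) ∈ bad)
  have hb1 : bad'.card ≤ D := by
    refine le_trans ?_ hbad
    refine Finset.card_le_card_of_injOn (fun x => (x.1.1, x.2.1)) ?_ ?_
    · intro x hx
      exact Finset.mem_coe.2 (Finset.mem_filter.1 (Finset.mem_coe.1 hx)).2
    · intro x _ y _ hxy
      simp only [Prod.mk.injEq] at hxy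
      exact Prod.ext (Subtype.ext hxy.1) (Fin.ext hxy.2)
  obtain ⟨σ, u, v, hσ, huv⟩ := hall_inj (P := {b // b ∈ P}) (Q := {b // b ∈ Q}) n D hn
    (fun b i => mark b.1 i.1) (fun b i => mark b.1 i.1) pi
    (fun b i b' i' e => by
      have e' : mark b.1 i.1 = mark b'.1 i'.1 := by
        rw [← hpi b.1 b.2 i.1 i.2, ← hpi b'.1 b'.2 i'.1 i'.2]
        exact congrArg pi e
      obtain ⟨h1, h2⟩ := hp b.1 b.2 b'.1 b'.2 i.1 i.2 i'.1 i'.2 e'
      exact ⟨Subtype.ext h1, Fin.ext h2⟩)
    bad' hb1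
    (fun b i hbi => by
      obtain ⟨b', hb', i', hi', e⟩ := h b.1 b.2 i.1 i.2 (by
        intro hmem
        exact hbi (Finset.mem_filter.2 ⟨Finset.mem_univ _, hmem⟩))
      exact ⟨⟨b', hb'⟩, ⟨i', hi'⟩, e⟩)
  have := Fintype.card_le_of_injective σ hσ
  rwa [Fintype.card_coe, Fintype.card_coe] at this

/-- The same with finsets of blocks: a chosen mark in every block, matched by `pi`. -/
theorem hall_finset {B M : Type*} [DecidableEq B] (n D : ℕ) (hn : D < n) (P Q : Finset B)
    (mark : B → ℕ → M)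
    (hp : ∀ b ∈ P, ∀ b' ∈ P, ∀ i < n, ∀ i' < n, mark b i = mark b' i' → b = b' ∧ i = i')
    (hPQ : ∀ b ∈ P, b ∉ Q) (hcard : P.card = Q.card)
    (pi : M → M) (hpi : ∀ b ∈ P, ∀ i < n, pi (pi (mark b i)) = mark b i)
    (bad : Finset (B × ℕ)) (hbad : bad.card ≤ D)
    (h : ∀ b ∈ P, ∀ i < n, (b, i) ∉ bad → ∃ b' ∈ Q, ∃ i' < n, pi (mark b i) = mark b' i') :
    ∃ (s : B → B) (k : B → ℕ), (∀ b ∈ P, s b ∈ Q) ∧ (∀ b ∈ Q, s b ∈ P) ∧
      (∀ b ∈ P ∪ Q, s (s b) = b) ∧ (∀ b ∈ P ∪ Q, k b < n) ∧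
      (∀ b ∈ P, pi (mark b (k b)) = mark (s b) (k (s b))) ∧
      (∀ b ∈ Q, pi (mark b (k b)) = mark (s b) (k (s b))) := by
  classical
  let bad' : Finset ({b // b ∈ P} × Fin n) :=
    Finset.univ.filter (fun x => (x.1.1, x.2.1) ∈ bad)
  have hb1 : bad'.card ≤ D := by
    refine le_trans ?_ hbad
    refine Finset.card_le_card_of_injOn (fun x => (x.1.1, x.2.1)) ?_ ?_
    · intro x hx
      exact Finset.mem_coe.2 (Finset.mem_filter.1 (Finset.mem_coe.1 hx)).2
    · intro x _ y _ hxy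
      simp only [Prod.mk.injEq] at hxy
      exact Prod.ext (Subtype.ext hxy.1) (Fin.ext hxy.2)
  obtain ⟨σ, u, v, huv⟩ := hall_marks (P := {b // b ∈ P}) (Q := {b // b ∈ Q}) n D hn
    (fun b i => mark b.1 i.1) (fun b i => mark b.1 i.1)
    (by rw [Fintype.card_coe, Fintype.card_coe, hcard]) pi
    (fun b i b' i' e => by
      have e' : mark b.1 i.1 = mark b'.1 i'.1 := by
        rw [← hpi b.1 b.2 i.1 i.2, ← hpi b'.1 b'.2 i'.1 i'.2]
        exact congrArg pi e
      obtain ⟨h1, h2⟩ := hp b.1 b.2 b'.1 b'.2 i.1 i.2 i'.1 i'.2 e'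
      exact ⟨Subtype.ext h1, Fin.ext h2⟩)
    bad' hb1
    (fun b i hbi => by
      obtain ⟨b', hb', i', hi', e⟩ := h b.1 b.2 i.1 i.2 (by
        intro hmem
        exact hbi (Finset.mem_filter.2 ⟨Finset.mem_univ _, hmem⟩))
      exact ⟨⟨b', hb'⟩, ⟨i', hi'⟩, e⟩)
  refine ⟨fun b => if hb : b ∈ P then (σ ⟨b, hb⟩).1 else
      if hb : b ∈ Q then (σ.symm ⟨b, hb⟩).1 else b,
    fun b => if hb : b ∈ P then (u ⟨b, hb⟩).1 else
      if hb : b ∈ Q then (v ⟨b, hb⟩).1 else 0, ?_, ?_, ?_, ?_, ?_, ?_⟩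
  · intro b hb
    simp only [hb, dif_pos]
    exact (σ ⟨b, hb⟩).2
  · intro b hb
    have hb' : b ∉ P := fun h' => hPQ b h' hb
    simp only [hb', hb, dif_neg, dif_pos, not_false_eq_true]
    exact (σ.symm ⟨b, hb⟩).2
  · intro b hb
    by_cases hbP : b ∈ P
    · have h2 := (σ ⟨b, hbP⟩).2
      have h2' : (σ ⟨b, hbP⟩).1 ∉ P := fun h' => hPQ _ h' h2
      simp only [hbP, dif_pos, h2', h2, dif_neg, not_false_eq_true, Subtype.coe_eta,
        Equiv.symm_apply_apply]
    · have hbQ : b ∈ Q := (Finset.mem_union.1 hb).resolve_left hbP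
      have h2 := (σ.symm ⟨b, hbQ⟩).2
      simp only [hbP, hbQ, dif_pos, dif_neg, h2, not_false_eq_true, Subtype.coe_eta,
        Equiv.apply_symm_apply]
  · intro b hb
    by_cases hbP : b ∈ P
    · simp only [hbP, dif_pos]
      exact (u ⟨b, hbP⟩).2
    · have hbQ : b ∈ Q := (Finset.mem_union.1 hb).resolve_left hbP
      simp only [hbP, hbQ, dif_pos, dif_neg, not_false_eq_true]
      exact (v ⟨b, hbQ⟩).2
  · intro b hb
    have h2 := (σ ⟨b, hb⟩).2
    have h2' : (σ ⟨b, hb⟩).1 ∉ P := fun h' => hPQ _ h' h2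
    simp only [hb, dif_pos, h2', h2, dif_neg, not_false_eq_true, Subtype.coe_eta]
    exact huv ⟨b, hb⟩
  · intro b hb
    have hb' : b ∉ P := fun h' => hPQ b h' hb
    have h2 := (σ.symm ⟨b, hb⟩).2
    simp only [hb', hb, dif_pos, h2, dif_neg, not_false_eq_true, Subtype.coe_eta]
    have h3 := huv (σ.symm ⟨b, hb⟩)
    rw [Equiv.apply_symm_apply] at h3
    rw [← h3]
    exact hpi _ h2 _ (u (σ.symm ⟨b, hb⟩)).2

end H6CD
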