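import Pool.Agent.SQ.Defs

/-!
# Poincare duality groups modulo two: the statement of the duality theorem
-/

set_option autoImplicit false

namespace Helper6CD

open Singer SQ

/-- coboundaries of `Hom_H(R, Y)` in degree `i` -/
def IsCob {H : Type} [Group H] {Y : Type} [AddCommGroup Y] [Module (ZMod 2) Y] (τ : Representation (ZMod 2) H Y)
    (R : FinRes H) : ∀ i : ℕ, (R.ι i → Y) → Prop
  | 0, y => y = 0
  | i + 1, y => ∃ e, SQ.cobd τ (R.d i) e = y

/-- `H` is a Poincare duality group of dimension `n` modulo two, in terms of the resolution `R` of finite length: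
`H^i(H; F_2 H)` is zero for `i ≠ n` and of order two for `i = n` -/
def IsPD2 {H : Type} [Group H] (n : ℕ) (R : FinRes H) : Prop :=
  (∃ N, ∀ i, N < i → IsEmpty (R.ι i)) ∧ (∀ i, i ≠ n → Ex (trans H (ZMod 2)) R i) ∧
    ∃ η : (R.ι n → (H →₀ ZMod 2)) →+ ZMod 2,
      (∀ y, SQ.cobd (trans H (ZMod 2)) (R.d n) y = 0 → (η y = 0 ↔ IsCob (trans H (ZMod 2)) R n y)) ∧
        ∃ t, SQ.cobd (trans H (ZMod 2)) (R.d n) t = 0 ∧ η t = 1

/-- the duality theorem modulo two -/
def StmtPD2 : Prop :=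
  ∀ (H : Type) [Group H] (n : ℕ) (R : FinRes H), IsPD2 n R → ∀ (Y : Type) [AddCommGroup Y] [Module (ZMod 2) Y]
    (τ : Representation (ZMod 2) H Y), (∀ i, i ≤ n → ExH τ R (n - i) → Ex τ R i) ∧ ∀ i, n < i → Ex τ R i

end Helper6CD
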