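import Pool.Agent.Helper6.CD.Bd

/-!
# Homology spheres: restriction of the fundamental cycle, acyclic families
-/

set_option autoImplicit false
set_option linter.unusedSectionVars false
set_option linter.unusedVariables false

namespace Helper6CD

open Singer

universe u

section sph
variable {V : Type u} [Fintype V] [DecidableEq V] {A : Type*} [CommRing A] {r : V → ℕ}

/-- chains of degree `i` of the family of the faces which contain `B` -/
def InC (X : Set (Finset V)) (B : Finset V) (i : ℕ) (c : Finset V → A) : Prop :=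
  ∀ S, c S ≠ 0 → S ∈ X ∧ B ⊆ S ∧ S.card = i

/-- cycles of degree `i` of the family of the faces which contain `B` -/
def InZ (r : V → ℕ) (X : Set (Finset V)) (B : Finset V) (i : ℕ) (c : Finset V → A) : Prop :=
  InC X B i c ∧ ∀ S, B ⊆ S → bd r c S = 0

/-- homology spheres of dimension `n - 1`: the complex `X` modulo the complement of the open star of any face `B` has
the homology of the sphere -/
structure SphF (A : Type*) [CommRing A] (r : V → ℕ) (X : Set (Finset V)) (n : ℕ) : Prop where
  down : ∀ S ∈ X, ∀ T, T ⊆ S → T ∈ X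
  dim : ∀ S ∈ X, S.card ≤ n
  ex : ∀ B ∈ X, ∀ i, i ≠ n → ∀ c : Finset V → A, InZ r X B i c →
    ∃ e : Finset V → A, InC X B (i + 1) e ∧ ∀ S, B ⊆ S → bd r e S = c S
  top : ∀ B ∈ X, ∃ z : Finset V → A, InZ r X B n z ∧ (∀ a : A, (∀ S, a * z S = 0) → a = 0) ∧
    ∀ z' : Finset V → A, InZ r X B n z' → ∃ a : A, ∀ S, z' S = a * z S

open Classical in
/-- restriction to the faces which contain `B` -/
noncomputable def res (B : Finset V) (c : Finset V → A) (S : Finset V) : A := if B ⊆ S then c S else 0

theorem res_of {B S : Finset V} (c : Finset V → A) (h : B ⊆ S) : res B c S = c S := if_pos h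

theorem res_not {B S : Finset V} (c : Finset V → A) (h : ¬ B ⊆ S) : res B c S = 0 := if_neg h

theorem bd_res {B S : Finset V} (c : Finset V → A) (h : B ⊆ S) : bd r (res B c) S = bd r c S :=
  bd_congr fun v _ => res_of c (h.trans (Finset.subset_insert _ _))

theorem InC.res {X : Set (Finset V)} {B B' : Finset V} {i : ℕ} {c : Finset V → A} (h : InC X B i c) :
    InC X B' i (res B' c) := by
  intro S hS
  by_cases h1 : B' ⊆ S
  · rw [res_of c h1] at hS
    exact ⟨(h S hS).1, h1, (h S hS).2.2⟩
  · exact absurd (res_not c h1) hS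

theorem InZ.res {X : Set (Finset V)} {B B' : Finset V} {i : ℕ} {c : Finset V → A} (h : InZ r X B i c)
    (hB : B ⊆ B') : InZ r X B' i (res B' c) :=
  ⟨h.1.res, fun S hS => by rw [bd_res c hS]; exact h.2 S (hB.trans hS)⟩

theorem res_res {B B' : Finset V} (c : Finset V → A) (h : B ⊆ B') : res B' (res B c) = res B' c := by
  funext S
  by_cases h1 : B' ⊆ S
  · rw [res_of _ h1, res_of _ h1, res_of _ (h.trans h1)]
  · rw [res_not _ h1, res_not _ h1]

theorem InZ.sub {X : Set (Finset V)} {B : Finset V} {i : ℕ} {c e : Finset V → A} (h : InZ r X B i c)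
    (h' : InZ r X B i e) : InZ r X B i (fun S => c S - e S) := by
  refine ⟨fun S hS => ?_, fun S hS => ?_⟩
  · by_cases h1 : c S = 0
    · exact h'.1 S fun h2 => hS (by simp [h1, h2])
    · exact h.1 S h1
  · rw [bd_sub, h.2 S hS, h'.2 S hS, sub_zero]

theorem InZ.smul {X : Set (Finset V)} {B : Finset V} {i : ℕ} {c : Finset V → A} (a : A) (h : InZ r X B i c) :
    InZ r X B i (fun S => a * c S) := by
  refine ⟨fun S hS => h.1 S fun h1 => hS (by simp [h1]), fun S hS => ?_⟩
  rw [bd_smul, h.2 S hS, mul_zero]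

/-- the restriction is bijective on the cycles of top degree -/
def Bij (A : Type*) [CommRing A] (r : V → ℕ) (X : Set (Finset V)) (n : ℕ) (B B' : Finset V) : Prop :=
  (∀ z : Finset V → A, InZ r X B n z → (∀ S, res B' z S = 0) → ∀ S, z S = 0) ∧
    ∀ y : Finset V → A, InZ r X B' n y → ∃ z : Finset V → A, InZ r X B n z ∧ ∀ S, res B' z S = y S

theorem bij_of_surj {X : Set (Finset V)} {n : ℕ} (h : SphF A r X n) {B B' : Finset V} (hB : B ∈ X) (hB' : B' ∈ X)
    (hs : ∀ y : Finset V → A, InZ r X B' n y → ∃ z : Finset V → A, InZ r X B n z ∧ ∀ S, res B' z S = y S) :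
    Bij A r X n B B' := by
  refine ⟨fun z' hz' h0 => ?_, hs⟩
  obtain ⟨z, hz, hz1, hz2⟩ := h.top B hB
  obtain ⟨y, hy, hy1, hy2⟩ := h.top B' hB'
  obtain ⟨w, hw, hwy⟩ := hs y hy
  obtain ⟨a, ha⟩ := hz2 w hw
  obtain ⟨b, hb⟩ := hz2 z' hz'
  have h1 : b = 0 := by
    refine hy1 b fun S => ?_
    rw [← hwy]
    by_cases h2 : B' ⊆ S
    · rw [res_of w h2, ha]
      have h3 := h0 S
      rw [res_of z' h2, hb] at h3
      linear_combination a * h3
    · rw [res_not w h2, mul_zero]
  intro S
  rw [hb, h1, zero_mul]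

/-- the delta function -/
noncomputable def dlt (S : Finset V) (a : A) (T : Finset V) : A := if T = S then a else 0

theorem bd_dlt {S T : Finset V} {v : V} (hv : v ∉ S) (a : A) (hT : T.card = S.card) :
    bd r (dlt (insert v S) a) T = if ∃ u, u ∉ T ∧ insert u T = insert v S then
      bd r (dlt (insert v S) a) T else 0 := by
  split_ifs with h
  · rfl
  · refine bd_eq_zero fun u hu => if_neg fun h1 => h ⟨u, hu, h1⟩

theorem bd_dlt_self {B : Finset V} {v : V} (hv : v ∉ B) (a : A) :
    bd r (dlt (insert v B) a) B = sgz r v B • a := by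
  unfold bd
  rw [Finset.sum_eq_single v]
  · rw [dlt, if_pos rfl]
  · intro u hu huv
    have hu' : u ∉ B := by simpa using hu
    have h1 : insert u B ≠ insert v B := by
      intro h2
      have h3 : u ∈ insert v B := h2 ▸ Finset.mem_insert_self u B
      rcases Finset.mem_insert.1 h3 with h4 | h4
      · exact huv h4
      · exact hu' h4
    rw [dlt, if_neg h1, smul_zero]
  · intro h1
    exact absurd (by simpa using hv) h1

theorem bd_dlt_big {B S : Finset V} {v : V} (a : A) (hS : B.card + 1 ≤ S.card) :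
    bd r (dlt (insert v B) a) S = 0 := by
  refine bd_eq_zero fun u hu => if_neg fun h1 => ?_
  have h2 := congrArg Finset.card h1
  rw [Finset.card_insert_of_notMem hu] at h2
  have h3 := Finset.card_insert_le v B
  omega

theorem eq_of_card_le {B S : Finset V} (h : B ⊆ S) (h1 : S.card ≤ B.card) : S = B :=
  (Finset.eq_of_subset_of_card_le h h1).symm

end sph

section dom
variable {V : Type u} [Fintype V] [DecidableEq V] {A : Type*} [CommRing A] [IsDomain A] {r : V → ℕ}

/-- the sets of vertices of the link which contain with a vertex its neighbours are empty or everything -/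
theorem link_conn (hr : Function.Injective r) {X : Set (Finset V)} {n : ℕ} (h : SphF A r X n) {B : Finset V}
    (hB : B ∈ X) (hn : B.card + 2 ≤ n) (K : Finset V) (hK : ∀ u ∈ K, u ∉ B ∧ insert u B ∈ X)
    (hcl : ∀ u ∈ K, ∀ w, w ∉ insert u B → insert w (insert u B) ∈ X → w ∈ K) {v : V} (hv : v ∈ K) {w : V}
    (hw : w ∉ B) (hwX : insert w B ∈ X) : w ∈ K := by
  classical
  by_contra hwK
  have hvB := (hK v hv).1
  have hvw : v ≠ w := fun h1 => hwK (h1 ▸ hv)
  let c : Finset V → A := fun S => dlt (insert v B) (sgz r v B : A) S - dlt (insert w B) (sgz r w B : A) S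
  have hsq : ∀ u, ((sgz r u B : ℤ) : A) * ((sgz r u B : ℤ) : A) = 1 := fun u => by
    rw [← Int.cast_mul, sgz_sq, Int.cast_one]
  have hc : InZ r X B (B.card + 1) c := by
    refine ⟨fun S hS => ?_, fun S hS => ?_⟩
    · by_cases h1 : S = insert v B
      · rw [h1]
        exact ⟨(hK v hv).2, Finset.subset_insert _ _, Finset.card_insert_of_notMem hvB⟩
      · by_cases h2 : S = insert w B
        · rw [h2]
          exact ⟨hwX, Finset.subset_insert _ _, Finset.card_insert_of_notMem hw⟩
        · exact absurd (by simp [c, dlt, h1, h2]) hS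
    · rw [bd_sub]
      by_cases h1 : S.card ≤ B.card
      · rw [eq_of_card_le hS h1, bd_dlt_self hvB, bd_dlt_self hw, zsmul_eq_mul, zsmul_eq_mul, hsq, hsq, sub_self]
      · rw [bd_dlt_big _ (by omega), bd_dlt_big _ (by omega), sub_self]
  obtain ⟨e, he, hde⟩ := h.ex B hB (B.card + 1) (by omega) c hc
  -- the sum over `K`
  have h1 : ∑ u ∈ K, (sgz r u B : A) * bd r e (insert u B) = 1 := by
    rw [Finset.sum_eq_single v]
    · rw [hde _ (Finset.subset_insert _ _)]
      have h2 : insert v B ≠ insert w B := by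
        intro h3
        have h4 : v ∈ insert w B := h3 ▸ Finset.mem_insert_self v B
        rcases Finset.mem_insert.1 h4 with h5 | h5
        · exact hvw h5
        · exact hvB h5
      show _ * (dlt (insert v B) (sgz r v B : A) (insert v B) - dlt (insert w B) (sgz r w B : A) (insert v B)) = 1
      rw [dlt, if_pos rfl, dlt, if_neg h2, sub_zero, hsq]
    · intro u hu huv
      rw [hde _ (Finset.subset_insert _ _)]
      have huB := (hK u hu).1
      have h2 : ∀ x, x ≠ u → insert u B ≠ insert x B := by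
        intro x hx h3
        have h4 : u ∈ insert x B := h3 ▸ Finset.mem_insert_self u B
        rcases Finset.mem_insert.1 h4 with h5 | h5
        · exact hx h5.symm
        · exact huB h5
      have h3 : w ≠ u := fun h4 => hwK (h4 ▸ hu)
      show _ * (dlt (insert v B) (sgz r v B : A) (insert u B) - dlt (insert w B) (sgz r w B : A) (insert u B)) = 0
      rw [dlt, if_neg (h2 v (Ne.symm huv)), dlt, if_neg (h2 w h3), sub_zero, mul_zero]
    · intro h2
      exact absurd hv h2
  have h2 : ∑ u ∈ K, (sgz r u B : A) * bd r e (insert u B) =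
      ∑ x ∈ K.offDiag, (sgz r x.1 B * sgz r x.2 (insert x.1 B) : ℤ) • e (insert x.2 (insert x.1 B)) := by
    have h3 : ∀ u ∈ K, (sgz r u B : A) * bd r e (insert u B) =
        ∑ x ∈ K.erase u, (sgz r u B * sgz r x (insert u B) : ℤ) • e (insert x (insert u B)) := by
      intro u hu
      unfold bd
      rw [Finset.mul_sum]
      symm
      refine Finset.sum_subset_zero_on_sdiff (s₂ := (insert u B)ᶜ)
        (g := fun x => (sgz r u B : A) * (sgz r x (insert u B) • e (insert x (insert u B)))) ?_ ?_ ?_
      · intro x hx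
        have hx' := Finset.mem_erase.1 hx
        simp only [Finset.mem_compl, Finset.mem_insert, not_or]
        exact ⟨hx'.1, (hK x hx'.2).1⟩
      · intro x hx
        rw [Finset.mem_sdiff, Finset.mem_compl] at hx
        have h4 : e (insert x (insert u B)) = 0 := by
          by_contra h5
          have h6 := (he _ h5).1
          have h7 := hcl u hu x hx.1 h6
          refine hx.2 (Finset.mem_erase.2 ⟨?_, h7⟩)
          rintro rfl
          exact hx.1 (Finset.mem_insert_self _ _)
        rw [h4, smul_zero, mul_zero]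
      · intro x _
        rw [mul_smul, zsmul_eq_mul]
    rw [Finset.sum_congr rfl h3, Finset.sum_sigma']
    refine Finset.sum_bij' (fun x _ => (x.1, x.2)) (fun x _ => (⟨x.1, x.2⟩ : Σ _ : V, V)) ?_ ?_ ?_ ?_ ?_
    · rintro ⟨u, x⟩ hx
      simp only [Finset.mem_sigma, Finset.mem_erase] at hx
      rw [Finset.mem_offDiag]
      exact ⟨hx.1, hx.2.2, Ne.symm hx.2.1⟩
    · rintro ⟨u, x⟩ hx
      rw [Finset.mem_offDiag] at hx
      simp only [Finset.mem_sigma, Finset.mem_erase]
      exact ⟨hx.1, Ne.symm hx.2.2, hx.2.1⟩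
    · rintro ⟨u, x⟩ _
      rfl
    · rintro ⟨u, x⟩ _
      rfl
    · rintro ⟨u, x⟩ _
      rfl
  have h3 : ∑ x ∈ K.offDiag, (sgz r x.1 B * sgz r x.2 (insert x.1 B) : ℤ) • e (insert x.2 (insert x.1 B)) = 0 := by
    refine Finset.sum_involution (fun x _ => (x.2, x.1)) ?_ ?_ ?_ ?_
    · rintro ⟨u, x⟩ hx
      rw [Finset.mem_offDiag] at hx
      obtain ⟨hu, hx', hne⟩ := hx
      dsimp only at hu hx' hne ⊢
      rw [Finset.insert_comm u x B, sgz_anti hr (hK u hu).1 (hK x hx').1 hne, neg_smul, neg_add_cancel]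
    · rintro ⟨u, x⟩ hx _ h4
      rw [Finset.mem_offDiag] at hx
      exact hx.2.2 (congrArg Prod.snd h4)
    · rintro ⟨u, x⟩ hx
      rw [Finset.mem_offDiag] at hx ⊢
      exact ⟨hx.2.1, hx.1, Ne.symm hx.2.2⟩
    · rintro ⟨u, x⟩ _
      rfl
  rw [h2, h3] at h1
  exact zero_ne_one h1

end dom

end Helper6CD
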