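import Pool.Agent.Helper6.CD.Sph

/-!
# Homology spheres: the fundamental cycle restricts to generators; acyclic families
-/

set_option autoImplicit false
set_option linter.unusedSectionVars false
set_option linter.unusedVariables false

namespace Helper6CD

open Singer

universe u

section dom
variable {V : Type u} [Fintype V] [DecidableEq V] {A : Type*} [CommRing A] [IsDomain A] {r : V → ℕ}

theorem sq_one (u : V) (B : Finset V) : ((sgz r u B : ℤ) : A) * ((sgz r u B : ℤ) : A) = 1 := by
  rw [← Int.cast_mul, sgz_sq, Int.cast_one]

theorem exists_facet {X : Set (Finset V)} {n : ℕ} (h : SphF A r X n) {B : Finset V} (hB : B ∈ X) :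
    ∃ S ∈ X, B ⊆ S ∧ S.card = n := by
  obtain ⟨z, hz, hz1, _⟩ := h.top B hB
  by_contra hno
  have h0 : ∀ S, z S = 0 := fun S => by
    by_contra h1
    exact hno ⟨S, hz.1 S h1⟩
  have h1 : (1 : A) = 0 := hz1 1 fun S => by rw [h0, mul_zero]
  exact one_ne_zero h1

/-- **restriction of the fundamental cycle** -/
theorem bij (hr : Function.Injective r) {X : Set (Finset V)} {n : ℕ} (h : SphF A r X n) :
    ∀ k : ℕ, ∀ B ∈ X, B.card + k = n → ∀ v, v ∉ B → insert v B ∈ X → Bij A r X n B (insert v B) := by
  classical
  intro k
  induction k with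
  | zero =>
    intro B hB hk v hv hvX
    have h1 := h.dim _ hvX
    rw [Finset.card_insert_of_notMem hv] at h1
    omega
  | succ k ih =>
    intro B hB hk v hv hvX
    refine bij_of_surj h hB hvX fun y hy => ?_
    by_cases hk0 : k = 0
    · -- two facets
      subst hk0
      have hcard : ∀ u, u ∉ B → (insert u B).card = n := fun u hu => by
        rw [Finset.card_insert_of_notMem hu]
        omega
      -- another facet
      obtain ⟨w, hw, hwX, hwv⟩ : ∃ w, w ∉ B ∧ insert w B ∈ X ∧ w ≠ v := by
        by_contra hno
        obtain ⟨z, hz, hz1, _⟩ := h.top B hB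
        have hz0 : ∀ S, z S = 0 := by
          intro S
          by_contra h1
          obtain ⟨h2, h3, h4⟩ := hz.1 S h1
          -- `S = insert v B`
          have h5 : ∀ T, z T ≠ 0 → T = insert v B := by
            intro T hT
            obtain ⟨h6, h7, h8⟩ := hz.1 T hT
            have h9 : ∃ u ∈ T, u ∉ B := by
              by_contra h10
              push Not at h10
              have := Finset.card_le_card h10
              omega
            obtain ⟨u, hu, huB⟩ := h9
            have h10 : insert u B ⊆ T := Finset.insert_subset hu h7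
            have h11 : T = insert u B := (Finset.eq_of_subset_of_card_le h10 (by rw [hcard u huB]; omega)).symm
            by_cases h12 : u = v
            · rw [h11, h12]
            · exact absurd ⟨u, huB, h11 ▸ h6, h12⟩ hno
          have h6 := hz.2 B subset_rfl
          have h7 : bd r z B = bd r (dlt (insert v B) (z (insert v B))) B := by
            refine bd_congr fun u hu => ?_
            by_cases h8 : insert u B = insert v B
            · rw [h8, dlt, if_pos rfl]
            · rw [dlt, if_neg h8]
              by_contra h9
              exact h8 (h5 _ h9)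
          rw [h7, bd_dlt_self hv, zsmul_eq_mul] at h6
          have h8 : z (insert v B) = 0 := by
            have h9 := congrArg (fun t => ((sgz r v B : ℤ) : A) * t) h6
            simp only [mul_zero] at h9
            rw [← mul_assoc, sq_one, one_mul] at h9
            exact h9
          rw [h5 S h1] at h1
          exact h1 h8
        exact one_ne_zero (hz1 1 fun S => by rw [hz0, mul_zero])
      -- the cycle
      let a : A := ((sgz r v B : ℤ) : A) * y (insert v B)
      refine ⟨fun S => dlt (insert v B) (((sgz r v B : ℤ) : A) * a) S - dlt (insert w B) (((sgz r w B : ℤ) : A) * a) S,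
        ⟨fun S hS => ?_, fun S hS => ?_⟩, fun S => ?_⟩
      · by_cases h1 : S = insert v B
        · rw [h1]
          exact ⟨hvX, Finset.subset_insert _ _, hcard v hv⟩
        · by_cases h2 : S = insert w B
          · rw [h2]
            exact ⟨hwX, Finset.subset_insert _ _, hcard w hw⟩
          · exact absurd (by simp [dlt, h1, h2]) hS
      · rw [bd_sub]
        by_cases h1 : S.card ≤ B.card
        · have e1 : ∀ u, ((sgz r u B : ℤ) : A) * (((sgz r u B : ℤ) : A) * a) = a := fun u => by
            rw [← mul_assoc, sq_one, one_mul]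
          rw [eq_of_card_le hS h1, bd_dlt_self hv, bd_dlt_self hw, zsmul_eq_mul, zsmul_eq_mul, e1, e1, sub_self]
        · rw [bd_dlt_big _ (by omega), bd_dlt_big _ (by omega), sub_self]
      · have hne : insert v B ≠ insert w B := by
          intro h3
          have h4 : w ∈ insert v B := h3 ▸ Finset.mem_insert_self w B
          rcases Finset.mem_insert.1 h4 with h5 | h5
          · exact hwv h5
          · exact hw h5
        by_cases h1 : S = insert v B
        · subst h1
          rw [res_of _ subset_rfl]
          show dlt (insert v B) (((sgz r v B : ℤ) : A) * a) (insert v B) - dlt (insert w B) (((sgz r w B : ℤ) : A) * a)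
            (insert v B) = _
          rw [dlt, if_pos rfl, dlt, if_neg hne, sub_zero]
          show ((sgz r v B : ℤ) : A) * (((sgz r v B : ℤ) : A) * y (insert v B)) = _
          rw [← mul_assoc, sq_one, one_mul]
        · have h2 : y S = 0 := by
            by_contra h3
            obtain ⟨_, h4, h5⟩ := hy.1 S h3
            exact h1 (Finset.eq_of_subset_of_card_le h4 (by rw [hcard v hv]; omega)).symm
          rw [h2]
          by_cases h3 : insert v B ⊆ S
          · rw [res_of _ h3]
            have h4 : S ≠ insert w B := by
              rintro rfl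
              exact h1 (Finset.eq_of_subset_of_card_le h3 (by rw [hcard v hv, hcard w hw])).symm
            show dlt (insert v B) (((sgz r v B : ℤ) : A) * a) S - dlt (insert w B) (((sgz r w B : ℤ) : A) * a) S = 0
            rw [dlt, if_neg h1, dlt, if_neg h4, sub_zero]
          · exact res_not _ h3
    · -- propagation of divisibility
      obtain ⟨z, hz, hz1, hz2⟩ := h.top B hB
      obtain ⟨g, hg, hg1, hg2⟩ := h.top (insert v B) hvX
      obtain ⟨a, ha⟩ := hg2 _ (hz.res (Finset.subset_insert v B))
      -- all restrictions are divisible by `a`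
      have hstep : ∀ u, u ∉ B → insert u B ∈ X → ∀ y : Finset V → A, InZ r X (insert u B) n y →
          (∀ S, res (insert u B) z S = a * y S) → ∀ w, w ∉ insert u B → insert w (insert u B) ∈ X →
          ∃ y' : Finset V → A, InZ r X (insert w B) n y' ∧ ∀ S, res (insert w B) z S = a * y' S := by
        intro u hu huX y hy hyz w hw hwX
        have hwu : w ≠ u := fun h1 => hw (h1 ▸ Finset.mem_insert_self u B)
        have hwB : w ∉ B := fun h1 => hw (Finset.mem_insert_of_mem h1)
        have hcom : insert w (insert u B) = insert u (insert w B) := Finset.insert_comm w u B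
        have hwX' : insert w B ∈ X := h.down _ hwX _ (by rw [hcom]; exact Finset.subset_insert _ _)
        have hu' : u ∉ insert w B := by
          intro h1
          rcases Finset.mem_insert.1 h1 with h2 | h2
          · exact hwu h2.symm
          · exact hu h2
        have hb := ih (insert w B) hwX' (by rw [Finset.card_insert_of_notMem hwB]; omega) u hu' (hcom ▸ hwX)
        have h1 : InZ r X (insert u (insert w B)) n (res (insert u (insert w B)) y) :=
          hy.res (by rw [← hcom]; exact Finset.subset_insert _ _)
        obtain ⟨y', hy', hyy⟩ := hb.2 _ h1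
        refine ⟨y', hy', fun S => ?_⟩
        have h2 : InZ r X (insert w B) n (fun S => res (insert w B) z S - a * y' S) :=
          (hz.res (Finset.subset_insert w B)).sub (hy'.smul a)
        have h3 := hb.1 _ h2 fun S => by
          by_cases h4 : insert u (insert w B) ⊆ S
          · rw [res_of _ h4, res_of z ((Finset.subset_insert _ _).trans h4)]
            have h5 := hyy S
            rw [res_of _ h4, res_of _ h4] at h5
            have h6 : insert u B ⊆ S := fun x hx => by
              rcases Finset.mem_insert.1 hx with h7 | h7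
              · exact h4 (h7 ▸ Finset.mem_insert_self _ _)
              · exact h4 (Finset.mem_insert_of_mem (Finset.mem_insert_of_mem h7))
            have h7 := hyz S
            rw [res_of z h6] at h7
            rw [h7, h5, sub_self]
          · exact res_not _ h4
        exact sub_eq_zero.1 (h3 S)
      let K : Finset V := Finset.univ.filter fun u => u ∉ B ∧ insert u B ∈ X ∧
        ∃ y : Finset V → A, InZ r X (insert u B) n y ∧ ∀ S, res (insert u B) z S = a * y S
      have hKm : ∀ u, u ∈ K ↔ u ∉ B ∧ insert u B ∈ X ∧
        ∃ y : Finset V → A, InZ r X (insert u B) n y ∧ ∀ S, res (insert u B) z S = a * y S := by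
        intro u
        simp [K]
      have hvK : v ∈ K := (hKm v).2 ⟨hv, hvX, g, hg, ha⟩
      have hall : ∀ w, w ∉ B → insert w B ∈ X → w ∈ K := by
        intro w hw hwX
        refine link_conn hr h hB (by omega) K (fun u hu => ?_) (fun u hu w hw hwX => ?_) hvK hw hwX
        · exact ⟨((hKm u).1 hu).1, ((hKm u).1 hu).2.1⟩
        · obtain ⟨h1, h2, y, h3, h4⟩ := (hKm u).1 hu
          have hcom : insert w (insert u B) = insert u (insert w B) := Finset.insert_comm w u B
          refine (hKm w).2 ⟨fun h5 => hw (Finset.mem_insert_of_mem h5), ?_, hstep u h1 h2 y h3 h4 w hw hwX⟩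
          exact h.down _ hwX _ (by rw [hcom]; exact Finset.subset_insert _ _)
      -- all values are divisible
      have hdiv : ∀ S, ∃ b : A, z S = a * b ∧ (z S = 0 → b = 0) := by
        intro S
        by_cases h1 : z S = 0
        · exact ⟨0, by rw [h1, mul_zero], fun _ => rfl⟩
        · obtain ⟨h2, h3, h4⟩ := hz.1 S h1
          have h9 : ∃ u ∈ S, u ∉ B := by
            by_contra h10
            push Not at h10
            have := Finset.card_le_card h10
            omega
          obtain ⟨u, hu, huB⟩ := h9
          have h10 : insert u B ⊆ S := Finset.insert_subset hu h3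
          obtain ⟨_, _, y, _, h5⟩ := (hKm u).1 (hall u huB (h.down S h2 _ h10))
          have h6 := h5 S
          rw [res_of z h10] at h6
          exact ⟨y S, h6, fun h7 => absurd h7 h1⟩
      choose z' hz' hz'0 using hdiv
      have ha0 : a ≠ 0 := by
        intro h1
        refine one_ne_zero (hz1 (1 : A) fun S => ?_)
        rw [hz' S, h1, zero_mul, mul_zero]
      have hz'Z : InZ r X B n z' := by
        refine ⟨fun S hS => hz.1 S fun h1 => hS (hz'0 S h1), fun S hS => ?_⟩
        have h1 : a * bd r z' S = 0 := by
          rw [← bd_smul, ← hz.2 S hS]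
          exact bd_congr fun v _ => (hz' _).symm
        exact (mul_eq_zero.1 h1).resolve_left ha0
      obtain ⟨b, hb⟩ := hz2 z' hz'Z
      have hab : a * b = 1 := by
        have h1 : (a * b - 1 : A) = 0 := hz1 _ fun S => by
          have h2 := hz' S
          rw [hb S] at h2
          linear_combination -h2
        exact sub_eq_zero.1 h1
      -- surjectivity
      obtain ⟨t, ht⟩ := hg2 y hy
      refine ⟨fun S => (t * b) * z S, hz.smul _, fun S => ?_⟩
      by_cases h1 : insert v B ⊆ S
      · rw [res_of _ h1]
        have h2 := ha S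
        rw [res_of z h1] at h2
        rw [ht S, h2]
        linear_combination (t * g S) * hab
      · rw [res_not _ h1]
        symm
        by_contra h2
        exact h1 (hy.1 S h2).2.1

/-- homogeneous parts -/
theorem part {D : Set (Finset V)} (c : Finset V → A) (S : Finset V) :
    c S = ∑ i ∈ Finset.range (Fintype.card V + 1), (if S.card = i then c S else 0) := by
  classical
  rw [Finset.sum_ite_eq]
  have := Finset.card_le_univ S
  rw [if_pos (Finset.mem_range.2 (by omega))]

/-- acyclicity of the faces which contain `B` and not `v` -/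
theorem hAcy_sub (hr : Function.Injective r) {X : Set (Finset V)} {n : ℕ} (h : SphF A r X n) {B : Finset V}
    (hB : B ∈ X) {v : V} (hv : v ∉ B) (hvX : insert v B ∈ X) : HAcy A r {S | S ∈ X ∧ B ⊆ S ∧ v ∉ S} := by
  classical
  have hbij : Bij A r X n B (insert v B) := by
    have h1 := h.dim B hB
    exact bij hr h (n - B.card) B hB (by omega) v hv hvX
  -- homogeneous chains
  have key : ∀ i, ∀ c : Finset V → A, (∀ S, c S ≠ 0 → (S ∈ X ∧ B ⊆ S ∧ v ∉ S) ∧ S.card = i) →
      (∀ S, B ⊆ S → v ∉ S → bd r c S = 0) →
      ∃ e : Finset V → A, (∀ S, e S ≠ 0 → S ∈ X ∧ B ⊆ S ∧ v ∉ S) ∧ ∀ S, B ⊆ S → v ∉ S → bd r e S = c S := by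
    intro i c hc hdc
    have hcZ : InZ r X B i c := by
      refine ⟨fun S hS => ⟨(hc S hS).1.1, (hc S hS).1.2.1, (hc S hS).2⟩, fun S hS => ?_⟩
      by_cases h1 : v ∈ S
      · refine bd_eq_zero fun w _ => ?_
        by_contra h2
        exact (hc _ h2).1.2.2 (Finset.mem_insert_of_mem h1)
      · exact hdc S hS h1
    have hres0 : ∀ S, res (insert v B) c S = 0 := by
      intro S
      by_cases h1 : insert v B ⊆ S
      · rw [res_of c h1]
        by_contra h2
        exact (hc S h2).1.2.2 (h1 (Finset.mem_insert_self _ _))
      · exact res_not c h1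
    by_cases hi : i = n
    · subst hi
      have h1 := hbij.1 c hcZ hres0
      refine ⟨fun _ => 0, fun S hS => absurd rfl hS, fun S _ _ => ?_⟩
      rw [h1 S]
      exact bd_eq_zero fun _ _ => rfl
    · obtain ⟨e, he, hde⟩ := h.ex B hB i hi c hcZ
      -- the restriction of `e` is a cycle
      have hez : InZ r X (insert v B) (i + 1) (res (insert v B) e) := by
        refine ⟨he.res, fun S hS => ?_⟩
        rw [bd_res e hS, hde S ((Finset.subset_insert _ _).trans hS)]
        have h1 := hres0 S
        rwa [res_of c hS] at h1
      -- a correction `g`, with `bd g = 0` away from `v`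
      obtain ⟨g, hg, hdg, hgr⟩ : ∃ g : Finset V → A, InC X B (i + 1) g ∧ (∀ S, B ⊆ S → v ∉ S → bd r g S = 0) ∧
          ∀ S, insert v B ⊆ S → g S = e S := by
        by_cases hi1 : i + 1 = n
        · subst hi1
          obtain ⟨z, hz, hzr⟩ := hbij.2 _ hez
          refine ⟨z, hz.1, fun S hS _ => hz.2 S hS, fun S hS => ?_⟩
          have h1 := hzr S
          rwa [res_of _ hS, res_of _ hS] at h1
        · obtain ⟨f, hf, hdf⟩ := h.ex (insert v B) hvX (i + 1) hi1 _ hez
          refine ⟨fun S => if B ⊆ S then bd r f S else 0, fun S hS => ?_, fun S hS hvS => ?_, fun S hS => ?_⟩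
          · dsimp only at hS
            by_cases h1 : B ⊆ S
            · rw [if_pos h1] at hS
              have h2 : ∃ w, w ∉ S ∧ f (insert w S) ≠ 0 := by
                by_contra h3
                push Not at h3
                exact hS (bd_eq_zero fun w hw => h3 w hw)
              obtain ⟨w, hw, hfw⟩ := h2
              obtain ⟨h3, h4, h5⟩ := hf _ hfw
              rw [Finset.card_insert_of_notMem hw] at h5
              exact ⟨h.down _ h3 _ (Finset.subset_insert _ _), h1, by omega⟩
            · rw [if_neg h1] at hS
              exact absurd rfl hS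
          · have h1 : bd r (fun S => if B ⊆ S then bd r f S else 0) S = bd r (bd r f) S := by
              refine bd_congr fun w _ => if_pos (hS.trans (Finset.subset_insert _ _))
            rw [h1]
            exact bd_bd hr f S
          · dsimp only
            rw [if_pos ((Finset.subset_insert _ _).trans hS), hdf S hS, res_of e hS]
      refine ⟨fun S => e S - g S, fun S hS => ?_, fun S hS hvS => ?_⟩
      · dsimp only at hS
        have h1 : S ∈ X ∧ B ⊆ S := by
          by_cases h2 : e S = 0
          · have h3 : g S ≠ 0 := fun h3 => hS (by rw [h2, h3, sub_zero])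
            exact ⟨(hg S h3).1, (hg S h3).2.1⟩
          · exact ⟨(he S h2).1, (he S h2).2.1⟩
        refine ⟨h1.1, h1.2, fun h2 => hS ?_⟩
        rw [hgr S (Finset.insert_subset h2 h1.2), sub_self]
      · rw [bd_sub, hde S hS, hdg S hS hvS, sub_zero]
  -- general chains
  intro c hc hdc
  let ci : ℕ → Finset V → A := fun i S => if S.card = i then c S else 0
  have hci : ∀ i, ∃ e : Finset V → A, (∀ S, e S ≠ 0 → S ∈ X ∧ B ⊆ S ∧ v ∉ S) ∧
      ∀ S, B ⊆ S → v ∉ S → bd r e S = ci i S := by
    intro i
    refine key i (ci i) (fun S hS => ?_) fun S hS hvS => ?_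
    · by_cases h1 : S.card = i
      · refine ⟨?_, h1⟩
        by_contra h2
        refine hS ?_
        show (if S.card = i then c S else 0) = 0
        rw [if_pos h1, hc S h2]
      · exact absurd (if_neg h1) hS
    · by_cases h1 : S.card + 1 = i
      · have h2 : bd r (ci i) S = bd r c S := by
          refine bd_congr fun w hw => if_pos ?_
          rw [Finset.card_insert_of_notMem hw]
          exact h1
        rw [h2]
        by_cases h3 : S ∈ X
        · exact hdc S ⟨h3, hS, hvS⟩
        · refine bd_eq_zero fun w _ => hc _ fun h4 => h3 ?_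
          exact h.down _ h4.1 _ (Finset.subset_insert _ _)
      · refine bd_eq_zero fun w hw => if_neg ?_
        rw [Finset.card_insert_of_notMem hw]
        exact h1
  choose e he hde using hci
  refine ⟨fun S => ∑ i ∈ Finset.range (Fintype.card V + 1), e i S, fun S hS => ?_, fun S hS => ?_⟩
  · refine Finset.sum_eq_zero fun i _ => ?_
    by_contra h1
    exact hS (he i S h1)
  · rw [bd_sum, part (D := X) c S]
    exact Finset.sum_congr rfl fun i _ => hde i S hS.2.1 hS.2.2

end dom

section pid
variable {V : Type u} [Fintype V] [DecidableEq V] {A : Type*} [CommRing A] [IsDomain A] [IsPrincipalIdealRing A]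
  {r : V → ℕ}

theorem cvx_fam {X : Set (Finset V)} (hX : ∀ S ∈ X, ∀ T, T ⊆ S → T ∈ X) (B σ : Finset V) :
    Cvx {S | S ∈ X ∧ B ⊆ S ∧ Disjoint S σ} := by
  rintro S ⟨h1, h2, h3⟩ T ⟨h4, h5, h6⟩ R hSR hRT
  exact ⟨hX T h4 R hRT, h2.trans hSR, Finset.disjoint_of_subset_left hRT h6⟩

/-- **acyclic families** -/
theorem acy_fam (hr : Function.Injective r) {X : Set (Finset V)} {n : ℕ} (h : SphF A r X n) (σ : Finset V)
    (hσ : σ.Nonempty) : ∀ B : Finset V, Disjoint B σ → B ∪ σ ∈ X → Acy A r {S | S ∈ X ∧ B ⊆ S ∧ Disjoint S σ} := by
  induction hσ using Finset.Nonempty.cons_induction with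
  | singleton v =>
    intro B hB hX
    have hv : v ∉ B := by simpa using hB
    have hvX : insert v B ∈ X := by
      have : B ∪ {v} = insert v B := by
        ext x
        simp
      rwa [this] at hX
    have h1 := hAcy_sub hr h (h.down _ hvX _ (Finset.subset_insert _ _)) hv hvX
    have h2 : {S : Finset V | S ∈ X ∧ B ⊆ S ∧ v ∉ S} = {S | S ∈ X ∧ B ⊆ S ∧ Disjoint S {v}} := by
      ext S
      simp
    rw [h2] at h1
    exact acy_of_hAcy hr (cvx_fam h.down B {v}) h1
  | cons v σ hv hσ ih =>
    intro B hB hX
    rw [Finset.cons_eq_insert] at hB hX ⊢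
    have hBσ : Disjoint B σ := Finset.disjoint_of_subset_right (Finset.subset_insert _ _) hB
    have hvB : v ∉ B := fun h1 => (Finset.disjoint_left.1 hB h1) (Finset.mem_insert_self _ _)
    have h1 := ih B hBσ (h.down _ hX _ (Finset.union_subset_union_right (Finset.subset_insert _ _)))
    have h2 := ih (insert v B) (by
      rw [Finset.disjoint_insert_left]
      exact ⟨hv, hBσ⟩) (by
      have : insert v B ∪ σ = B ∪ insert v σ := by
        ext x
        simp only [Finset.mem_union, Finset.mem_insert]
        tauto
      rwa [this])
    refine acy_low hr (D₂ := {S | S ∈ X ∧ insert v B ⊆ S ∧ Disjoint S σ}) ⟨cvx_fam h.down B σ, fun S => ?_, ?_⟩ h1 h2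
    · constructor
      · rintro ⟨h3, h4, h5⟩
        by_cases h6 : v ∈ S
        · exact Or.inr ⟨h3, Finset.insert_subset h6 h4, h5⟩
        · exact Or.inl ⟨h3, h4, Finset.disjoint_insert_right.2 ⟨h6, h5⟩⟩
      · rintro (⟨h3, h4, h5⟩ | ⟨h3, h4, h5⟩)
        · exact ⟨h3, h4, (Finset.disjoint_insert_right.1 h5).2⟩
        · exact ⟨h3, (Finset.subset_insert _ _).trans h4, h5⟩
    · rintro S ⟨_, _, h5⟩ T ⟨_, h4, _⟩ hTS
      exact (Finset.disjoint_insert_right.1 h5).1 (hTS (h4 (Finset.mem_insert_self _ _)))

end pid

end Helper6CD
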