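import Pool.Agent.Helper6.CD.Sph2
import Pool.Agent.Singer.Sphere

/-!
# From homology spheres to the hereditary sphere condition of the Singer project
-/

set_option autoImplicit false
set_option linter.unusedSectionVars false
set_option linter.unusedVariables false

namespace Helper6CD

open Singer

universe u

section fam
variable {V : Type u} [Fintype V] [DecidableEq V] {M : Type*} [AddCommGroup M] {r : V → ℕ}

/-- the converse of the shift -/
theorem acy_unshift (hr : Function.Injective r) {D : Set (Finset V)} {v : V} (hv : ∀ S ∈ D, v ∉ S)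
    (hD : ∀ S ∈ D, ∀ T ⊆ S, T ∈ D) (h : Acy M r ((fun S => insert v S) '' D)) : Acy M r D := by
  have hmem : ∀ S, v ∉ S → (insert v S ∈ ((fun S => insert v S) '' D) ↔ S ∈ D) := by
    intro S hS
    constructor
    · rintro ⟨T, hT, h1⟩
      dsimp only at h1
      have h2 : S = T := by rw [← Finset.erase_insert hS, ← h1, Finset.erase_insert (hv T hT)]
      rw [h2]
      exact hT
    · exact fun h1 => ⟨S, h1, rfl⟩
  have hm2 : ∀ S, S ∈ ((fun S => insert v S) '' D) → v ∈ S := by
    rintro _ ⟨T, _, rfl⟩
    exact Finset.mem_insert_self v T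
  have h1 : Acy M r (D ∪ ((fun S => insert v S) '' D)) := by
    refine acy_cone hr v fun S hS => ?_
    constructor
    · rintro (h2 | h2)
      · exact Or.inr ⟨S, h2, rfl⟩
      · exact absurd (hm2 S h2) hS
    · rintro (h2 | h2)
      · exact absurd (Finset.mem_insert_self v S) (hv _ h2)
      · exact Or.inl ((hmem S hS).1 h2)
  refine acy_low hr (D := D ∪ ((fun S => insert v S) '' D)) (D₂ := (fun S => insert v S) '' D)
    ⟨?_, fun S => Iff.rfl, ?_⟩ h1 h
  · intro S _ T hT R _ hRT
    rcases hT with h2 | ⟨T', hT', rfl⟩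
    · exact Or.inl (hD T h2 R hRT)
    · dsimp only at hRT
      by_cases h3 : v ∈ R
      · refine Or.inr ⟨R.erase v, hD T' hT' _ ?_, Finset.insert_erase h3⟩
        intro x hx
        obtain ⟨h4, h5⟩ := Finset.mem_erase.1 hx
        exact (Finset.mem_insert.1 (hRT h5)).resolve_left h4
      · refine Or.inl (hD T' hT' _ fun x hx => ?_)
        exact (Finset.mem_insert.1 (hRT hx)).resolve_left fun h4 => h3 (h4 ▸ hx)
  · intro S hS T hT hTS
    exact hv S hS (hTS (hm2 T hT))

end fam

section SG
variable {V : Type u} [DecidableEq V]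

/-- the families of cliques of a flag homology sphere are acyclic -/
def SG (n : ℕ) (G : SimpleGraph V) : Prop :=
  (∀ S : Finset V, G.IsClique S → S.card ≤ n) ∧
  (∀ S : Finset V, G.IsClique S → ∃ T : Finset V, S ⊆ T ∧ G.IsClique T ∧ T.card = n) ∧
  ∀ r : V → ℕ, Function.Injective r → ∀ σ : Finset V, σ.Nonempty → ∀ B : Finset V, Disjoint B σ →
    G.IsClique (B ∪ σ : Finset V) → Acy ℤ r {S : Finset V | G.IsClique S ∧ B ⊆ S ∧ Disjoint S σ}

theorem isClique_map {G : SimpleGraph V} {v : V} {S : Finset {w // G.Adj v w}} :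
    (lk G v).IsClique S ↔ G.IsClique (S.map (Function.Embedding.subtype _) : Finset V) := by
  constructor
  · intro h x hx y hy hxy
    obtain ⟨x, hx', rfl⟩ := Finset.mem_map.1 (Finset.mem_coe.1 hx)
    obtain ⟨y, hy', rfl⟩ := Finset.mem_map.1 (Finset.mem_coe.1 hy)
    exact h (Finset.mem_coe.2 hx') (Finset.mem_coe.2 hy') fun h => hxy (congrArg _ h)
  · intro h x hx y hy hxy
    exact h (Finset.mem_coe.2 (Finset.mem_map.2 ⟨x, hx, rfl⟩)) (Finset.mem_coe.2 (Finset.mem_map.2 ⟨y, hy, rfl⟩))
      fun h => hxy (Subtype.ext h)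

/-- extension of an injective function -/
theorem exists_ext [Fintype V] (P : V → Prop) (r : {v // P v} → ℕ) (hr : Function.Injective r) :
    ∃ r' : V → ℕ, Function.Injective r' ∧ ∀ v : {v // P v}, r' v = r v := by
  classical
  let M : ℕ := Finset.univ.sup r + 1
  have hM : ∀ v, r v < M := fun v => Nat.lt_succ_of_le (Finset.le_sup (Finset.mem_univ v))
  let e := Fintype.equivFin V
  refine ⟨fun v => if h : P v then r ⟨v, h⟩ else M + e v, ?_, fun v => dif_pos v.2⟩
  intro v w h
  dsimp only at h
  by_cases hv : P v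
  · rw [dif_pos hv] at h
    by_cases hw : P w
    · rw [dif_pos hw] at h
      exact congrArg Subtype.val (hr h)
    · rw [dif_neg hw] at h
      have := hM ⟨v, hv⟩
      omega
  · rw [dif_neg hv] at h
    by_cases hw : P w
    · rw [dif_pos hw] at h
      have := hM ⟨w, hw⟩
      omega
    · rw [dif_neg hw] at h
      exact e.injective (Fin.ext (by omega))

theorem SG.lk [Fintype V] {n : ℕ} {G : SimpleGraph V} (h : SG (n + 1) G) (v : V) : SG n (lk G v) := by
  let j : {w // G.Adj v w} ↪ V := Function.Embedding.subtype _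
  have hvj : ∀ S : Finset {w // G.Adj v w}, v ∉ S.map j := by
    intro S hS
    obtain ⟨x, _, hx⟩ := Finset.mem_map.1 hS
    have h1 : (x : V) = v := hx
    have h2 : G.Adj v (x : V) := x.2
    rw [h1] at h2
    exact G.loopless.1 v h2
  have hins : ∀ S : Finset {w // G.Adj v w}, (Singer.lk G v).IsClique S → G.IsClique (insert v (S.map j) : Finset V) := by
    intro S hS
    refine isClique_insert (isClique_map.1 hS) fun x hx _ => ?_
    obtain ⟨y, _, rfl⟩ := Finset.mem_map.1 hx
    exact y.2
  -- sets of neighbours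
  have hpre : ∀ T : Finset V, (∀ x ∈ T, G.Adj v x) → ∃ S : Finset {w // G.Adj v w}, S.map j = T := by
    intro T hT
    refine ⟨T.preimage j j.injective.injOn, ?_⟩
    ext x
    rw [Finset.mem_map]
    constructor
    · rintro ⟨y, hy, rfl⟩
      exact Finset.mem_preimage.1 hy
    · intro hx
      exact ⟨⟨x, hT x hx⟩, Finset.mem_preimage.2 hx, rfl⟩
  refine ⟨fun S hS => ?_, fun S hS => ?_, ?_⟩
  · have h1 := h.1 _ (hins S hS)
    rw [Finset.card_insert_of_notMem (hvj S), Finset.card_map] at h1
    omega
  · obtain ⟨T, h1, h2, h3⟩ := h.2.1 _ (hins S hS)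
    have hvT : v ∈ T := h1 (Finset.mem_insert_self _ _)
    obtain ⟨S', hS'⟩ := hpre (T.erase v) fun x hx => by
      obtain ⟨h4, h5⟩ := Finset.mem_erase.1 hx
      exact h2 (Finset.mem_coe.2 hvT) (Finset.mem_coe.2 h5) h4.symm
    refine ⟨S', ?_, ?_, ?_⟩
    · rw [← Finset.map_subset_map (f := j), hS']
      intro x hx
      refine Finset.mem_erase.2 ⟨fun h4 => hvj S (h4 ▸ hx), h1 (Finset.mem_insert_of_mem hx)⟩
    · rw [isClique_map]
      show G.IsClique (S'.map j : Finset V)
      rw [hS']
      exact h2.subset (Finset.coe_subset.2 (Finset.erase_subset _ _))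
    · have h4 := congrArg Finset.card hS'
      rw [Finset.card_map, Finset.card_erase_of_mem hvT, h3] at h4
      exact h4
  · intro r' hr' σ hσ B hB hBσ
    obtain ⟨r, hr, hrr⟩ := exists_ext (G.Adj v) r' hr'
    have hr'' : (fun w => r (j w)) = r' := funext hrr
    rw [← hr'']
    have h1 := h.2.2 r hr (σ.map j) (by simpa using hσ) (insert v (B.map j)) (by
      rw [Finset.disjoint_insert_left]
      exact ⟨hvj σ, (Finset.disjoint_map j).2 hB⟩) (by
      have h2 := hins _ hBσ
      rw [Finset.map_union] at h2
      rw [Finset.insert_union]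
      exact h2)
    -- the family in `V`
    let D : Set (Finset V) := {S | v ∉ S ∧ G.IsClique (insert v S : Finset V) ∧ B.map j ⊆ S ∧ Disjoint S (σ.map j)}
    have h2 : ((fun S => insert v S) '' D) = {S : Finset V | G.IsClique S ∧ insert v (B.map j) ⊆ S ∧
        Disjoint S (σ.map j)} := by
      ext S
      constructor
      · rintro ⟨T, ⟨h3, h4, h5, h6⟩, rfl⟩
        exact ⟨h4, Finset.insert_subset_insert _ h5, Finset.disjoint_insert_left.2 ⟨hvj σ, h6⟩⟩
      · rintro ⟨h3, h4, h5⟩
        have hvS : v ∈ S := h4 (Finset.mem_insert_self _ _)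
        refine ⟨S.erase v, ⟨Finset.notMem_erase _ _, ?_, ?_, ?_⟩, Finset.insert_erase hvS⟩
        · rw [Finset.insert_erase hvS]
          exact h3
        · intro x hx
          exact Finset.mem_erase.2 ⟨fun h6 => hvj B (h6 ▸ hx), h4 (Finset.mem_insert_of_mem hx)⟩
        · exact Finset.disjoint_of_subset_left (Finset.erase_subset _ _) h5
    have hadj : ∀ S ∈ D, ∀ x ∈ S, G.Adj v x := by
      rintro S ⟨h3, h4, _, _⟩ x hx
      exact h4 (by simp) (by simp [hx]) fun h5 => h3 (h5 ▸ hx)
    refine (acy_pull (r := r) j (D := D) (fun S => ?_) fun S hS x hx => ⟨⟨x, hadj S hS x hx⟩, rfl⟩).2 ?_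
    · constructor
      · rintro ⟨h3, h4, h5⟩
        exact ⟨hvj S, hins S h3, Finset.map_subset_map.2 h4, (Finset.disjoint_map j).2 h5⟩
      · rintro ⟨h3, h4, h5, h6⟩
        refine ⟨isClique_map.2 (h4.subset (Finset.coe_subset.2 (Finset.subset_insert _ _))),
          Finset.map_subset_map.1 h5, (Finset.disjoint_map j).1 h6⟩
    · -- not a lower set: use the lower set argument relative to `B`
      have h3 : Acy ℤ r ((fun S => insert v S) '' D) := by
        rw [h2]
        exact h1
      -- union with the shift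
      have hmem : ∀ S, v ∉ S → (insert v S ∈ ((fun S => insert v S) '' D) ↔ S ∈ D) := by
        intro S hS
        constructor
        · rintro ⟨T, hT, h4⟩
          dsimp only at h4
          have h5 : S = T := by rw [← Finset.erase_insert hS, ← h4, Finset.erase_insert hT.1]
          rw [h5]
          exact hT
        · exact fun h4 => ⟨S, h4, rfl⟩
      have hm2 : ∀ S, S ∈ ((fun S => insert v S) '' D) → v ∈ S := by
        rintro _ ⟨T, _, rfl⟩
        exact Finset.mem_insert_self v T
      have h4 : Acy ℤ r (D ∪ ((fun S => insert v S) '' D)) := by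
        refine acy_cone hr v fun S hS => ?_
        constructor
        · rintro (h5 | h5)
          · exact Or.inr ⟨S, h5, rfl⟩
          · exact absurd (hm2 S h5) hS
        · rintro (h5 | h5)
          · exact absurd (Finset.mem_insert_self v S) h5.1
          · exact Or.inl ((hmem S hS).1 h5)
      -- membership in the union
      have hun : ∀ S, S ∈ D ∪ ((fun S => insert v S) '' D) ↔ G.IsClique (insert v S : Finset V) ∧ B.map j ⊆ S ∧
          Disjoint S (σ.map j) := by
        intro S
        by_cases hvS : v ∈ S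
        · constructor
          · rintro (h5 | h5)
            · exact absurd hvS h5.1
            · rw [h2] at h5
              rw [Finset.insert_eq_of_mem hvS]
              exact ⟨h5.1, (Finset.subset_insert _ _).trans h5.2.1, h5.2.2⟩
          · rintro ⟨h5, h6, h7⟩
            right
            rw [h2]
            rw [Finset.insert_eq_of_mem hvS] at h5
            exact ⟨h5, Finset.insert_subset hvS h6, h7⟩
        · constructor
          · rintro (h5 | h5)
            · exact ⟨h5.2.1, h5.2.2.1, h5.2.2.2⟩
            · exact absurd (hm2 S h5) hvS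
          · rintro ⟨h5, h6, h7⟩
            exact Or.inl ⟨hvS, h5, h6, h7⟩
      refine acy_low hr (D := D ∪ ((fun S => insert v S) '' D)) (D₂ := (fun S => insert v S) '' D)
        ⟨?_, fun S => Iff.rfl, ?_⟩ h4 h3
      · intro S hS T hT R hSR hRT
        have hS' := (hun S).1 hS
        have hT' := (hun T).1 hT
        exact (hun R).2 ⟨hT'.1.subset (Finset.coe_subset.2 (Finset.insert_subset_insert _ hRT)), hS'.2.1.trans hSR,
          Finset.disjoint_of_subset_left hRT hT'.2.2⟩
      · intro S hS T hT hTS
        exact hS.1 (hTS (hm2 T hT))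

theorem acy_inst {V : Type u} {I J : DecidableEq V} {M : Type*} [AddCommGroup M] {r : V → ℕ} {D : Set (Finset V)}
    (h : @Acy V I M _ r D) : @Acy V J M _ r D := by
  rwa [Subsingleton.elim J I]

theorem goodQ_of_SG : ∀ (n : ℕ) {V : Type u} [Fintype V] [DecidableEq V] {G : SimpleGraph V}, SG n G →
    GoodQ (fun n {V} [Fintype V] (G : SimpleGraph V) => QS.{u} n G) n G := by
  intro n
  induction n with
  | zero =>
    intro V _ _ G h
    refine ⟨fun v => ?_⟩
    have := h.1 {v} (by simp)
    simp at this
  | succ n ih =>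
    intro V _ _ G h
    have : DecidableRel G.Adj := Classical.decRel _
    rw [goodQ_succ_iff]
    refine ⟨⟨?_, fun σ hσ hc r hr => ?_⟩, fun v => ih (h.lk v)⟩
    · obtain ⟨T, _, _, hT⟩ := h.2.1 ∅ (by simp)
      have : T.Nonempty := by
        rw [← Finset.card_pos, hT]
        omega
      exact ⟨this.choose⟩
    · have h1 := h.2.2 r hr σ hσ ∅ (Finset.disjoint_empty_left _) (by rwa [Finset.empty_union])
      have h2 : Clq G σ = {S : Finset V | G.IsClique S ∧ ∅ ⊆ S ∧ Disjoint S σ} := by
        ext S
        simp [Clq]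
      rw [h2]
      exact acy_inst h1

end SG

end Helper6CD
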