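import Pool.Agent.Helper6.CD.Sph3
import Pool.Agent.Helper6.CD.Defs

/-!
# Finite simplicial complexes: the standard definition of a homology sphere by the reduced homology of links
-/

set_option autoImplicit false
set_option linter.unusedSectionVars false
set_option linter.unusedVariables false

namespace Helper6CD

open Singer

universe u

/-! ### independence of the order -/

section gauge
variable {V : Type u} [DecidableEq V] {M : Type*} [AddCommGroup M] {r r' : V → ℕ}

/-- the inversions between two orders -/
def inv2 (r r' : V → ℕ) (S : Finset V) : Finset (V × V) := (S ×ˢ S).filter fun p => r p.1 < r p.2 ∧ r' p.2 < r' p.1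

/-- the sign of the permutation between two orders -/
def eps (r r' : V → ℕ) (S : Finset V) : ℤ := (-1) ^ (inv2 r r' S).card

theorem eps_sq (S : Finset V) : eps r r' S * eps r r' S = 1 := by
  unfold eps
  rw [← pow_add]
  exact Even.neg_one_pow ⟨_, rfl⟩

theorem inv2_insert {v : V} {S : Finset V} (hv : v ∉ S) : (inv2 r r' (insert v S)).card =
    (inv2 r r' S).card + ((S.filter fun t => r t < r v ∧ r' v < r' t).card +
      (S.filter fun t => r v < r t ∧ r' t < r' v).card) := by
  have h1 : inv2 r r' (insert v S) = inv2 r r' S ∪ (((S.filter fun t => r t < r v ∧ r' v < r' t).image fun t => (t, v)) ∪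
      ((S.filter fun t => r v < r t ∧ r' t < r' v).image fun t => (v, t))) := by
    ext ⟨a, b⟩
    simp only [inv2, Finset.mem_union, Finset.mem_filter, Finset.mem_product, Finset.mem_insert, Finset.mem_image,
      Prod.mk.injEq]
    constructor
    · rintro ⟨⟨ha, hb⟩, h1, h2⟩
      rcases ha with rfl | ha
      · rcases hb with rfl | hb
        · exact absurd h1 (lt_irrefl _)
        · exact Or.inr (Or.inr ⟨b, ⟨hb, h1, h2⟩, rfl, rfl⟩)
      · rcases hb with rfl | hb
        · exact Or.inr (Or.inl ⟨a, ⟨ha, h1, h2⟩, rfl, rfl⟩)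
        · exact Or.inl ⟨⟨ha, hb⟩, h1, h2⟩
    · rintro (⟨⟨ha, hb⟩, h1, h2⟩ | ⟨t, ⟨ht, h1, h2⟩, rfl, rfl⟩ | ⟨t, ⟨ht, h1, h2⟩, rfl, rfl⟩)
      · exact ⟨⟨Or.inr ha, Or.inr hb⟩, h1, h2⟩
      · exact ⟨⟨Or.inr ht, Or.inl rfl⟩, h1, h2⟩
      · exact ⟨⟨Or.inl rfl, Or.inr ht⟩, h1, h2⟩
  rw [h1, Finset.card_union_of_disjoint, Finset.card_union_of_disjoint,
    Finset.card_image_of_injective _ (fun a b h => congrArg Prod.fst h),
    Finset.card_image_of_injective _ (fun a b h => congrArg Prod.snd h)]
  · rw [Finset.disjoint_left]
    rintro ⟨a, b⟩ h2 h3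
    obtain ⟨t, ht, h4⟩ := Finset.mem_image.1 h2
    obtain ⟨t', ht', h5⟩ := Finset.mem_image.1 h3
    have h6 : t = v := by rw [← h4] at h5; exact (congrArg Prod.fst h5).symm
    exact hv (h6 ▸ (Finset.mem_filter.1 ht).1)
  · rw [Finset.disjoint_left]
    rintro ⟨a, b⟩ h2 h3
    have h4 := (Finset.mem_product.1 (Finset.mem_filter.1 h2).1)
    rcases Finset.mem_union.1 h3 with h5 | h5
    · obtain ⟨t, ht, h6⟩ := Finset.mem_image.1 h5
      have h7 : v = b := congrArg Prod.snd h6
      exact hv (h7 ▸ h4.2)
    · obtain ⟨t, ht, h6⟩ := Finset.mem_image.1 h5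
      have h7 : v = a := congrArg Prod.fst h6
      exact hv (h7 ▸ h4.1)

theorem eps_insert (hr : Function.Injective r) (hr' : Function.Injective r') {v : V} {S : Finset V} (hv : v ∉ S) :
    eps r r' (insert v S) * sgz r v S = eps r r' S * sgz r' v S := by
  unfold eps sgz
  rw [inv2_insert hv, pow_add, mul_assoc, ← pow_add]
  congr 1
  -- parity
  have h1 : (S.filter fun t => r t < r v).card = (S.filter fun t => r t < r v ∧ r' t < r' v).card +
      (S.filter fun t => r t < r v ∧ r' v < r' t).card := by
    rw [← Finset.card_union_of_disjoint]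
    · congr 1
      ext t
      simp only [Finset.mem_filter, Finset.mem_union]
      constructor
      · rintro ⟨h2, h3⟩
        rcases lt_trichotomy (r' t) (r' v) with h4 | h4 | h4
        · exact Or.inl ⟨h2, h3, h4⟩
        · exact absurd (hr' h4 ▸ h2) hv
        · exact Or.inr ⟨h2, h3, h4⟩
      · rintro (⟨h2, h3, _⟩ | ⟨h2, h3, _⟩) <;> exact ⟨h2, h3⟩
    · rw [Finset.disjoint_left]
      intro t h2 h3
      have h4 := (Finset.mem_filter.1 h2).2.2
      have h5 := (Finset.mem_filter.1 h3).2.2
      omega
  have h2 : (S.filter fun t => r' t < r' v).card = (S.filter fun t => r t < r v ∧ r' t < r' v).card +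
      (S.filter fun t => r v < r t ∧ r' t < r' v).card := by
    rw [← Finset.card_union_of_disjoint]
    · congr 1
      ext t
      simp only [Finset.mem_filter, Finset.mem_union]
      constructor
      · rintro ⟨h2, h3⟩
        rcases lt_trichotomy (r t) (r v) with h4 | h4 | h4
        · exact Or.inl ⟨h2, h4, h3⟩
        · exact absurd (hr h4 ▸ h2) hv
        · exact Or.inr ⟨h2, h4, h3⟩
      · rintro (⟨h2, _, h3⟩ | ⟨h2, _, h3⟩) <;> exact ⟨h2, h3⟩
    · rw [Finset.disjoint_left]
      intro t h2 h3
      have h4 := (Finset.mem_filter.1 h2).2.1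
      have h5 := (Finset.mem_filter.1 h3).2.1
      omega
  rw [h1, h2]
  have h3 : ((S.filter fun t => r t < r v ∧ r' v < r' t).card + (S.filter fun t => r v < r t ∧ r' t < r' v).card) +
      ((S.filter fun t => r t < r v ∧ r' t < r' v).card + (S.filter fun t => r t < r v ∧ r' v < r' t).card) =
      ((S.filter fun t => r t < r v ∧ r' t < r' v).card + (S.filter fun t => r v < r t ∧ r' t < r' v).card) +
      2 * (S.filter fun t => r t < r v ∧ r' v < r' t).card := by ring
  rw [h3, pow_add, pow_mul]
  norm_num

theorem acy_rank (hr : Function.Injective r) (hr' : Function.Injective r') {D : Set (Finset V)} (h : Acy M r D) :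
    Acy M r' D := by
  have hg : ∀ S : Finset V, ∀ m : M, eps r r' S • eps r r' S • m = m := fun S m => by
    rw [← mul_smul, eps_sq, one_smul]
  have key : ∀ (c : Finset V → M) (T : Finset V), dl r' (fun S => eps r r' S • c S) T = eps r r' T • dl r c T := by
    intro c T
    unfold dl
    rw [Finset.smul_sum]
    refine Finset.sum_congr rfl fun v hv => ?_
    rw [← mul_smul, ← mul_smul]
    congr 1
    have h1 := eps_insert hr hr' (Finset.notMem_erase v T)
    rw [Finset.insert_erase hv] at h1
    rw [h1, mul_comm]
  intro c hc hd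
  obtain ⟨e, he, hde⟩ := h (fun S => eps r r' S • c S) (fun S hS => by
    show eps r r' S • c S = 0
    rw [hc S hS, smul_zero]) fun T hT => by
      have h1 := key (fun S => eps r r' S • c S) T
      have h2 : (fun S => eps r r' S • eps r r' S • c S) = c := funext fun S => hg S (c S)
      rw [h2, hd T hT] at h1
      rw [← hg T (dl r (fun S => eps r r' S • c S) T), ← h1, smul_zero]
  refine ⟨fun S => eps r r' S • e S, fun S hS => by
    show eps r r' S • e S = 0
    rw [he S hS, smul_zero], fun T hT => ?_⟩
  rw [key, hde T hT, hg]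

end gauge

/-! ### links -/

section link
variable {V : Type u} [Fintype V] [DecidableEq V] {A : Type*} [CommRing A] {r : V → ℕ}

/-- the gauge of the shift by `B` -/
def gam (r : V → ℕ) (B : Finset V) (T : Finset V) : ℤ := ∏ t ∈ T, (-1) ^ (B.filter fun b => r b < r t).card

theorem gam_sq (B T : Finset V) : gam r B T * gam r B T = 1 := by
  unfold gam
  rw [← Finset.prod_mul_distrib]
  refine Finset.prod_eq_one fun t _ => ?_
  rw [← pow_add]
  exact Even.neg_one_pow ⟨_, rfl⟩

theorem sgz_union {v : V} {B T : Finset V} (h : Disjoint T B) :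
    sgz r v (T ∪ B) = sgz r v T * (-1) ^ (B.filter fun b => r b < r v).card := by
  unfold sgz
  rw [Finset.filter_union, Finset.card_union_of_disjoint, pow_add]
  exact Finset.disjoint_filter_filter h

/-- the boundary and the shift by `B` -/
theorem bd_gam {B T : Finset V} (h : Disjoint T B) (c : Finset V → A) :
    bd r c (T ∪ B) = gam r B T • bd r (fun R => if Disjoint R B then gam r B R • c (R ∪ B) else 0) T := by
  unfold bd
  rw [Finset.smul_sum]
  have h1 : (T ∪ B)ᶜ ⊆ Tᶜ := Finset.compl_subset_compl.2 Finset.subset_union_left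
  refine Finset.sum_subset_zero_on_sdiff h1 (fun v hv => ?_) fun v hv => ?_
  · rw [Finset.mem_sdiff, Finset.mem_compl, Finset.mem_compl, Finset.mem_union, not_not] at hv
    have hvB : v ∈ B := hv.2.resolve_left hv.1
    dsimp only
    rw [if_neg, smul_zero, smul_zero]
    intro h2
    exact (Finset.disjoint_left.1 h2 (Finset.mem_insert_self v T)) hvB
  · rw [Finset.mem_compl, Finset.mem_union, not_or] at hv
    have h2 : Disjoint (insert v T) B := Finset.disjoint_insert_left.2 ⟨hv.2, h⟩
    dsimp only
    rw [if_pos h2, sgz_union h, Finset.insert_union, ← mul_smul, ← mul_smul]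
    congr 1
    have h3 : gam r B (insert v T) = (-1) ^ (B.filter fun b => r b < r v).card * gam r B T := by
      unfold gam
      rw [Finset.prod_insert hv.1]
    rw [h3]
    have h4 := gam_sq (r := r) B T
    linear_combination (-(sgz r v T * (-1) ^ (B.filter fun b => r b < r v).card)) * h4

/-- from the faces which contain `B` to the link -/
def dn (r : V → ℕ) (B : Finset V) (c : Finset V → A) (T : Finset V) : A :=
  if Disjoint T B then gam r B T • c (T ∪ B) else 0

/-- from the link to the faces which contain `B` -/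
def up (r : V → ℕ) (B : Finset V) (e : Finset V → A) (S : Finset V) : A :=
  if B ⊆ S then gam r B (S \ B) • e (S \ B) else 0

theorem gam_gam (B T : Finset V) (a : A) : gam r B T • gam r B T • a = a := by
  rw [← mul_smul, gam_sq, one_smul]

theorem dn_up {B : Finset V} {e : Finset V → A} (he : ∀ T, e T ≠ 0 → Disjoint T B) : dn r B (up r B e) = e := by
  funext T
  unfold dn
  by_cases h : Disjoint T B
  · rw [if_pos h, up, if_pos Finset.subset_union_right, Finset.union_sdiff_cancel_right h, gam_gam]
  · rw [if_neg h]
    by_contra h1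
    exact h (he T (Ne.symm h1))

theorem up_dn {B : Finset V} {c : Finset V → A} (hc : ∀ S, c S ≠ 0 → B ⊆ S) : up r B (dn r B c) = c := by
  funext S
  unfold up
  by_cases h : B ⊆ S
  · rw [if_pos h, dn, if_pos Finset.sdiff_disjoint, Finset.sdiff_union_of_subset h, gam_gam]
  · rw [if_neg h]
    by_contra h1
    exact h (hc S (Ne.symm h1))

theorem bd_dn {B T : Finset V} (h : Disjoint T B) (c : Finset V → A) :
    bd r c (T ∪ B) = gam r B T • bd r (dn r B c) T := bd_gam h c

theorem bd_dn_not {B T : Finset V} (h : ¬ Disjoint T B) (c : Finset V → A) : bd r (dn r B c) T = 0 := by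
  refine bd_eq_zero fun v _ => if_neg fun h1 => h ?_
  exact Finset.disjoint_of_subset_left (Finset.subset_insert _ _) h1

end link

/-! ### the standard definition -/

section std
open FlagSphere
variable {V : Type} [Fintype V] [LinearOrder V] {A : Type} [CommRing A]

/-- the number of smaller vertices -/
def rko (v : V) : ℕ := (Finset.univ.filter fun t => t < v).card

theorem rko_lt {v w : V} : rko v < rko w ↔ v < w := by
  have h1 : ∀ {v w : V}, v < w → rko v < rko w := by
    intro v w h
    refine Finset.card_lt_card ⟨?_, fun h1 => ?_⟩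
    · intro t ht
      exact Finset.mem_filter.2 ⟨Finset.mem_univ _, (Finset.mem_filter.1 ht).2.trans h⟩
    · have := (Finset.mem_filter.1 (h1 (Finset.mem_filter.2 ⟨Finset.mem_univ v, h⟩))).2
      exact lt_irrefl _ this
  refine ⟨fun h => ?_, h1⟩
  rcases lt_trichotomy v w with h2 | h2 | h2
  · exact h2
  · rw [h2] at h
    exact absurd h (lt_irrefl _)
  · exact absurd (h.trans (h1 h2)) (lt_irrefl _)

theorem rko_inj : Function.Injective (rko : V → ℕ) := by
  intro v w h
  rcases lt_trichotomy v w with h2 | h2 | h2
  · exact absurd h (ne_of_lt (rko_lt.2 h2))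
  · exact h2
  · exact absurd h (ne_of_gt (rko_lt.2 h2))

theorem boundary_eq (c : Finset V → A) (S : Finset V) : boundary A c S = bd rko c S := by
  show ∑ v ∈ Sᶜ, (-1) ^ (S.filter fun t => t < v).card * c (insert v S) = ∑ v ∈ Sᶜ, sgz rko v S • c (insert v S)
  refine Finset.sum_congr rfl fun v _ => ?_
  rw [zsmul_eq_mul]
  unfold sgz
  simp only [rko_lt]
  push_cast
  rfl

/-- the standard definition implies the relative one -/
theorem sphF_of_homologySphere {X : Set (Finset V)} (hX : ∀ S ∈ X, ∀ T ⊆ S, T ∈ X) {n : ℕ}
    (h : HomologySphere A X n) : SphF A rko X n where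
  down := hX
  dim S hS := (h S hS).1
  ex := by
    intro B hB i hi c hc
    by_cases hiB : i < B.card
    · have h0 : ∀ S, c S = 0 := fun S => by
        by_contra h1
        obtain ⟨_, h2, h3⟩ := hc.1 S h1
        have := Finset.card_le_card h2
        omega
      refine ⟨fun _ => 0, fun S hS => absurd rfl hS, fun S _ => ?_⟩
      rw [h0]
      exact bd_eq_zero fun _ _ => rfl
    · have hBn := (h B hB).1
      have h1 := (h B hB).2.2 (i - B.card) (by omega)
      have hcyc : dn rko B c ∈ cycles A (link X B) (i - B.card) := by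
        refine ⟨fun T hT => ?_, ?_⟩
        · unfold dn at hT
          by_cases h2 : Disjoint T B
          · rw [if_pos h2] at hT
            obtain ⟨h3, _, h5⟩ := hc.1 (T ∪ B) fun h4 => hT (by rw [h4, smul_zero])
            rw [Finset.card_union_of_disjoint h2] at h5
            exact ⟨⟨h2, h3⟩, by omega⟩
          · exact absurd (if_neg h2) hT
        · show boundary A (dn rko B c) = 0
          funext T
          rw [boundary_eq]
          by_cases h2 : Disjoint T B
          · have h3 := bd_dn (r := rko) h2 c
            rw [hc.2 _ Finset.subset_union_right] at h3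
            rw [← gam_gam (r := rko) B T (bd rko (dn rko B c) T), ← h3, smul_zero]
            rfl
          · exact bd_dn_not h2 c
      obtain ⟨e', he', hde'⟩ : dn rko B c ∈ boundaries A (link X B) (i - B.card) := by
        have h2 : (Submodule.Quotient.mk ⟨_, hcyc⟩ : Homology A (link X B) (i - B.card)) = 0 := Subsingleton.elim _ _
        have h3 := (Submodule.Quotient.mk_eq_zero _).1 h2
        exact h3
      have he'B : ∀ T, e' T ≠ 0 → Disjoint T B := fun T hT => (he' T hT).1.1
      refine ⟨up rko B e', fun S hS => ?_, fun S hS => ?_⟩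
      · unfold up at hS
        by_cases h2 : B ⊆ S
        · rw [if_pos h2] at hS
          obtain ⟨⟨h3, h4⟩, h5⟩ := he' (S \ B) fun h6 => hS (by rw [h6, smul_zero])
          rw [Finset.sdiff_union_of_subset h2] at h4
          rw [Finset.card_sdiff_of_subset h2] at h5
          have := Finset.card_le_card h2
          exact ⟨h4, h2, by omega⟩
        · exact absurd (if_neg h2) hS
      · have h2 := bd_dn (r := rko) (T := S \ B) Finset.sdiff_disjoint (up rko B e')
        rw [Finset.sdiff_union_of_subset hS, dn_up he'B, ← boundary_eq e', hde'] at h2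
        rw [h2, dn, if_pos Finset.sdiff_disjoint, Finset.sdiff_union_of_subset hS, gam_gam]
  top := by
    intro B hB
    obtain ⟨hBn, ⟨φ⟩, _⟩ := h B hB
    -- there are no boundaries
    have hb0 : ∀ x ∈ boundaries A (link X B) (n - B.card), x = 0 := by
      rintro _ ⟨e, he, rfl⟩
      have : e = 0 := by
        funext T
        by_contra h1
        obtain ⟨⟨h2, h3⟩, h4⟩ := he T h1
        have h5 := (h _ h3).1
        rw [Finset.card_union_of_disjoint h2] at h5
        omega
      rw [this, map_zero]
    obtain ⟨⟨z', hz'⟩, hzφ⟩ := Submodule.Quotient.mk_surjective _ (φ.symm 1)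
    have hzφ' : (Submodule.Quotient.mk ⟨z', hz'⟩ : Homology A (link X B) (n - B.card)) = φ.symm 1 := hzφ
    have hz1 : ∀ a : A, (∀ T, a * z' T = 0) → a = 0 := by
      intro a ha
      have h1 : a • (Submodule.Quotient.mk ⟨z', hz'⟩ : Homology A (link X B) (n - B.card)) = 0 := by
        rw [← Submodule.Quotient.mk_smul]
        have : a • (⟨z', hz'⟩ : cycles A (link X B) (n - B.card)) = 0 := Subtype.ext (funext fun T => ha T)
        rw [this]
        rfl
      rw [hzφ', ← map_smul, LinearEquiv.map_eq_zero_iff] at h1
      simpa using h1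
    have hz2 : ∀ x ∈ cycles A (link X B) (n - B.card), ∃ a : A, ∀ T, x T = a * z' T := by
      intro x hx
      let a : A := φ (Submodule.Quotient.mk ⟨x, hx⟩)
      refine ⟨a, fun T => ?_⟩
      have h1 : (Submodule.Quotient.mk ⟨x, hx⟩ : Homology A (link X B) (n - B.card)) =
          a • (Submodule.Quotient.mk ⟨z', hz'⟩ : Homology A (link X B) (n - B.card)) := by
        rw [hzφ', ← map_smul, smul_eq_mul, mul_one, LinearEquiv.symm_apply_apply]
      rw [← Submodule.Quotient.mk_smul, Submodule.Quotient.eq] at h1
      have h2 := hb0 _ h1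
      have h3 := congrFun h2 T
      exact sub_eq_zero.1 h3
    have hz'B : ∀ T, z' T ≠ 0 → Disjoint T B := fun T hT => (hz'.1 T hT).1.1
    refine ⟨up rko B z', ⟨fun S hS => ?_, fun S hS => ?_⟩, fun a ha => hz1 a fun T => ?_, fun x hx => ?_⟩
    · unfold up at hS
      by_cases h2 : B ⊆ S
      · rw [if_pos h2] at hS
        obtain ⟨⟨h3, h4⟩, h5⟩ := hz'.1 (S \ B) fun h6 => hS (by rw [h6, smul_zero])
        rw [Finset.sdiff_union_of_subset h2] at h4
        rw [Finset.card_sdiff_of_subset h2] at h5
        have := Finset.card_le_card h2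
        exact ⟨h4, h2, by omega⟩
      · exact absurd (if_neg h2) hS
    · have h2 := bd_dn (r := rko) (T := S \ B) Finset.sdiff_disjoint (up rko B z')
      rw [Finset.sdiff_union_of_subset hS, dn_up hz'B, ← boundary_eq z'] at h2
      rw [h2]
      have h3 : boundary A z' = 0 := hz'.2
      rw [h3]
      exact smul_zero _
    · by_cases h1 : Disjoint T B
      · have h2 := ha (T ∪ B)
        rw [up, if_pos Finset.subset_union_right, Finset.union_sdiff_cancel_right h1, mul_smul_comm] at h2
        rw [← gam_gam (r := rko) B T (a * z' T), h2, smul_zero]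
      · by_contra h2
        exact h1 (hz'B T fun h3 => h2 (by rw [h3, mul_zero]))
    · have hcyc : dn rko B x ∈ cycles A (link X B) (n - B.card) := by
        refine ⟨fun T hT => ?_, ?_⟩
        · unfold dn at hT
          by_cases h2 : Disjoint T B
          · rw [if_pos h2] at hT
            obtain ⟨h3, _, h5⟩ := hx.1 (T ∪ B) fun h4 => hT (by rw [h4, smul_zero])
            rw [Finset.card_union_of_disjoint h2] at h5
            exact ⟨⟨h2, h3⟩, by omega⟩
          · exact absurd (if_neg h2) hT
        · show boundary A (dn rko B x) = 0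
          funext T
          rw [boundary_eq]
          by_cases h2 : Disjoint T B
          · have h3 := bd_dn (r := rko) h2 x
            rw [hx.2 _ Finset.subset_union_right] at h3
            rw [← gam_gam (r := rko) B T (bd rko (dn rko B x) T), ← h3, smul_zero]
            rfl
          · exact bd_dn_not h2 x
      obtain ⟨a, ha⟩ := hz2 _ hcyc
      refine ⟨a, fun S => ?_⟩
      have h1 : up rko B (dn rko B x) = x := up_dn fun S hS => (hx.1 S hS).2.1
      rw [← h1]
      unfold up
      by_cases h2 : B ⊆ S
      · rw [if_pos h2, if_pos h2, ha, mul_smul_comm]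
      · rw [if_neg h2, if_neg h2, mul_zero]

end std

/-! ### the Charney-Davis inequality for integral homology spheres -/

section final
open FlagSphere
variable {V : Type} [Fintype V] [LinearOrder V]

/-- the graph of edges -/
def grf (K : Complex V) : SimpleGraph V where
  Adj u v := u ≠ v ∧ {u, v} ∈ K.faces
  symm := ⟨fun u v h => ⟨h.1.symm, by rw [Finset.pair_comm]; exact h.2⟩⟩
  loopless := ⟨fun v h => h.1 rfl⟩

theorem isClique_grf {K : Complex V} (hK : K.IsFlag) (S : Finset V) : (grf K).IsClique S ↔ S ∈ K.faces := by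
  constructor
  · intro h
    exact hK S fun u hu v hv huv => (h (Finset.mem_coe.2 hu) (Finset.mem_coe.2 hv) huv).2
  · intro h u hu v hv huv
    refine ⟨huv, K.down_closed S h _ fun x hx => ?_⟩
    rcases Finset.mem_insert.1 hx with rfl | hx
    · exact hu
    · rw [Finset.mem_singleton.1 hx]
      exact hv

theorem SG_of_homologySphere {K : Complex V} (hK : K.IsFlag) {n : ℕ} (h : HomologySphere ℤ K.faces n) :
    SG n (grf K) := by
  have hs := sphF_of_homologySphere K.down_closed h
  refine ⟨fun S hS => ?_, fun S hS => ?_, fun r hr σ hσ B hB hBσ => ?_⟩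
  · exact hs.dim S ((isClique_grf hK S).1 hS)
  · obtain ⟨T, h1, h2, h3⟩ := exists_facet hs ((isClique_grf hK S).1 hS)
    exact ⟨T, h2, (isClique_grf hK T).2 h1, h3⟩
  · have h1 := acy_fam rko_inj hs σ hσ B hB ((isClique_grf hK _).1 hBσ)
    have h2 : {S : Finset V | (grf K).IsClique S ∧ B ⊆ S ∧ Disjoint S σ} =
        {S | S ∈ K.faces ∧ B ⊆ S ∧ Disjoint S σ} := by
      ext S
      simp only [Set.mem_ofPred_eq, isClique_grf hK]
    rw [h2]
    exact acy_rank rko_inj hr h1

end final

end Helper6CD
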